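import Pool.Agent.V7H33.CY.GC1

/-!
# Families of forms: residue classes

Adapted from `Pool.Agent.V7H54.C8`.
-/

set_option autoImplicit false
set_option linter.unusedSectionVars false

namespace Pool.Agent.V7H33.CY

open Finset Pool.Agent.W262.RK Pool.Agent.W307.RT
open Pool.Agent.W29.RT (dvd_S1 dvd_S2 G2 c0 mj_eq)
open Pool.Agent.W372.RK2 (mem_Tup' sq_pow_dvd mj mj_primes prod_gw)
open Pool.Agent.V7H54.C8 (card_zmod card_aff)

variable {n : ℕ} {f : ℤ → ℤ → Fin n → ℤ} {g : ∀ p : ℕ, ZMod p → ZMod p → Fin n → ZMod p}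
  {D : Fin n → ℤ} {R : ℕ → Fin n → ℕ} (hf : FamOK f g D R)
  {z y Y : ℕ} {s v u : Fin n → ℕ}

include hf in
/-- a prime greater than 7 that divides a value does not divide the second variable -/
lemma ndvd_wG {x w : ℕ} {e : ℤ} (hc : x.Coprime w) {p : ℕ} (hp : p.Prime) (h7 : 7 < p) {j : Fin n}
    (h : (p : ℤ) ∣ f (x : ℤ) (e * (w : ℤ) + 2 * (x : ℤ)) j) : ¬ p ∣ w := by
  have : Fact p.Prime := ⟨hp⟩
  intro hw
  rw [dvd_fG hf hp] at h
  push_cast at h
  have hw' : (w : ZMod p) = 0 := (ZMod.natCast_eq_zero_iff _ _).2 hw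
  rw [hw', mul_zero, zero_add] at h
  have hx : (x : ZMod p) = 0 := hf.zero h7 h
  have hx' : p ∣ x := (ZMod.natCast_eq_zero_iff _ _).1 hx
  have := Nat.dvd_gcd hx' hw
  rw [hc] at this
  exact hp.one_lt.ne' (Nat.dvd_one.1 this)

include hf in
/-- a prime greater than 7 divides at most one value -/
lemma unG {x w : ℕ} {e : ℤ} (he : e = 1 ∨ e = -1) (hc : x.Coprime w) {p : ℕ} (hp : p.Prime)
    (h7 : 7 < p) {j l : Fin n}
    (hj : (p : ℤ) ∣ f (x : ℤ) (e * (w : ℤ) + 2 * (x : ℤ)) j)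
    (hl : (p : ℤ) ∣ f (x : ℤ) (e * (w : ℤ) + 2 * (x : ℤ)) l) : j = l := by
  have : Fact p.Prime := ⟨hp⟩
  have hw := ndvd_wG hf hc hp h7 hj
  rw [dvd_fG hf hp] at hj hl
  refine hf.uniq h7 ?_ hj hl
  rintro ⟨h3, h4⟩
  push_cast at h3 h4
  rw [h3, mul_zero, add_zero] at h4
  have hw' : (w : ZMod p) ≠ 0 := fun h => hw ((ZMod.natCast_eq_zero_iff _ _).1 h)
  rcases he with h | h <;> rw [h] at h4 <;> simp at h4 <;> exact hw' h4

/-- the parts `s j`, `v j ^ 2`, `u j` are coprime -/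
lemma cop_partsG {φ : Fin n → ℤ} (g : G2 z y s v u φ) (hs : s ∈ Tup (Fin n) z y)
    (hv : v ∈ Tup (Fin n) z y) (hu : u ∈ Tup (Fin n) y Y) (j : Fin n) :
    (s j).Coprime (v j) ∧ (s j).Coprime (u j) ∧ (v j).Coprime (u j) := by
  have hs' := (mem_Tup'.1 hs).1
  have hv' := (mem_Tup'.1 hv).1
  have hu' := (mem_Tup'.1 hu).1
  refine ⟨?_, ?_, ?_⟩
  · apply Nat.coprime_of_dvd
    intro p hp hps hpv
    exact (g.fs hp hps).2.2 (g.fv hp hpv).2
  · apply Nat.coprime_of_dvd
    intro p hp hps hpu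
    have h8 : y < p := (g.fu hu hp hpu).1
    have h9 : p ≤ y := (dv_prime (hs' j) hp hps).2
    omega
  · apply Nat.coprime_of_dvd
    intro p hp hps hpu
    have h8 : y < p := (g.fu hu hp hpu).1
    have h9 : p ≤ y := (dv_prime (hv' j) hp hps).2
    omega

include hf in
/-- two counted `x` that are congruent modulo all primes of the modulus are congruent -/
lemma congG (hz : 7 ≤ z) {e x x' : ℤ} {w : ℕ} (he : e = 1 ∨ e = -1)
    (hs : s ∈ Tup (Fin n) z y) (hv : v ∈ Tup (Fin n) z y) (hu : u ∈ Tup (Fin n) y Y)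
    (hzy : z < y) (hw : ∀ p : ℕ, p.Prime → ∀ j, p ∣ v j → ¬ p ∣ w)
    (gg : G2 z y s v u (f x (e * (w : ℤ) + 2 * x)))
    (gg' : G2 z y s v u (f x' (e * (w : ℤ) + 2 * x')))
    (hpp : ∀ p : ℕ, p.Prime → p ∣ ∏ j, mj c0 s v u j → (p : ℤ) ∣ x - x') :
    ((∏ j, mj c0 s v u j : ℕ) : ℤ) ∣ x - x' := by
  have hs' := (mem_Tup'.1 hs).1
  have hv' := (mem_Tup'.1 hv).1
  have hu' := (mem_Tup'.1 hu).1
  have hdj : ∀ (j : Fin n) (p : ℕ), p ∣ mj c0 s v u j → p ∣ ∏ j, mj c0 s v u j := fun j p h =>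
    h.trans (dvd_prod_of_mem _ (mem_univ j))
  rw [Nat.cast_prod]
  apply Finset.prod_dvd_of_coprime
  · intro j _ l _ hjl
    rw [Function.onFun, Nat.isCoprime_iff_coprime]
    apply Nat.coprime_of_dvd
    intro p hp hpj hpl
    have h1 := gg.fmj hu hzy hp hpj
    have h2 := gg.fmj hu hzy hp hpl
    exact hjl (gg.un p hp h1.1 j l h1.2 h2.2)
  intro j _
  have h5 : ((s j : ℕ) : ℤ) ∣ x - x' := by
    have h := sq_pow_dvd (dv_squarefree (hs' j)) 1 (x - x')
      (fun p hp hpd => by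
        rw [pow_one]
        apply hpp p hp (hdj j p _)
        rw [mj_eq]
        exact ((hpd.mul_right _).mul_right _))
    rwa [pow_one] at h
  have h6 : ((v j ^ 2 : ℕ) : ℤ) ∣ x - x' := by
    have h := sq_pow_dvd (dv_squarefree (hv' j)) 2 (x - x')
      (fun p hp hpd => by
        have h7 : 7 < p := lt_of_le_of_lt hz (dv_prime (hv' j) hp hpd).1
        refine hf.lift hp h7 he (j := j) (fun h => hw p hp j hpd (Int.natCast_dvd_natCast.1 h))
          (gg.fv hp hpd).2 (gg'.fv hp hpd).2 ?_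
        apply hpp p hp (hdj j p _)
        rw [mj_eq]
        exact (((hpd.pow two_ne_zero).mul_left _).mul_right _))
    exact_mod_cast h
  have h7 : ((u j : ℕ) : ℤ) ∣ x - x' := by
    have h := sq_pow_dvd (dv_squarefree (hu' j)) 1 (x - x')
      (fun p hp hpd => by
        rw [pow_one]
        apply hpp p hp (hdj j p _)
        rw [mj_eq]
        exact hpd.mul_left _)
    rwa [pow_one] at h
  obtain ⟨c1, c2, c3⟩ := cop_partsG gg hs hv hu j
  have hcop1 : IsCoprime ((s j : ℕ) : ℤ) ((v j ^ 2 : ℕ) : ℤ) := by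
    rw [Nat.isCoprime_iff_coprime]
    exact c1.pow_right 2
  have hcop2 : IsCoprime ((s j * v j ^ 2 : ℕ) : ℤ) ((u j : ℕ) : ℤ) := by
    rw [Nat.isCoprime_iff_coprime]
    exact Nat.Coprime.mul_left c2 (c3.pow_left 2)
  rw [mj_eq, Nat.cast_mul]
  refine hcop2.mul_dvd ?_ h7
  rw [Nat.cast_mul]
  exact hcop1.mul_dvd h5 h6

open Classical in
/-- the residues modulo `p` that are roots of the forms with `p ∣ mj j` -/
noncomputable def ZG {n : ℕ} (f : ℤ → ℤ → Fin n → ℤ) (e : ℤ) (w : ℕ) (s v u : Fin n → ℕ) (p : ℕ) : Finset ℕ :=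
  (range p).filter (fun a : ℕ => ∀ j, p ∣ mj c0 s v u j →
    (p : ℤ) ∣ f (a : ℤ) (e * (w : ℤ) + 2 * (a : ℤ)) j)

include hf in
lemma card_ZG {e : ℤ} (he : e = 1 ∨ e = -1) {w p : ℕ} (hp : p.Prime) (h7 : 7 < p) (hw : ¬ p ∣ w)
    {j : Fin n} (hj : p ∣ mj c0 s v u j) : (ZG f e w s v u p).card ≤ R p j := by
  have : Fact p.Prime := ⟨hp⟩
  have hw' : ((w : ℕ) : ZMod p) ≠ 0 := fun h => hw ((ZMod.natCast_eq_zero_iff _ _).1 h)
  have hE : (e : ZMod p) = 1 ∨ (e : ZMod p) = -1 := by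
    rcases he with h | h
    · left; rw [h]; simp
    · right; rw [h]; simp
  rw [← hf.root_card h7 hE hw' j, ← card_zmod]
  apply card_le_card
  intro a ha
  unfold ZG at ha
  rw [mem_filter] at ha ⊢
  refine ⟨ha.1, ?_⟩
  have h := ha.2 j hj
  rw [dvd_fG hf hp] at h
  push_cast at h
  exact h

lemma mj_ne_zeroG (hs : s ∈ Tup (Fin n) z y) (hv : v ∈ Tup (Fin n) z y)
    (hu : u ∈ Tup (Fin n) y Y) (j : Fin n) : mj c0 s v u j ≠ 0 := by
  have h1 := dv_ne_zero ((mem_Tup'.1 hs).1 j)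
  have h2 := dv_ne_zero ((mem_Tup'.1 hv).1 j)
  have h3 := dv_ne_zero ((mem_Tup'.1 hu).1 j)
  rw [mj_eq]
  positivity

include hf in
lemma R_powG {p : ℕ} (hp : p.Prime) (h7 : 7 < p) (j : Fin n) : (R p j : ℝ) ≤ 2 := by
  exact_mod_cast R_leG hf hp h7 j

include hf in
/-- the number of tuples of residues -/
lemma card_piG (hz : 7 ≤ z) {e x : ℤ} {w : ℕ} (he : e = 1 ∨ e = -1)
    (hs : s ∈ Tup (Fin n) z y) (hv : v ∈ Tup (Fin n) z y) (hu : u ∈ Tup (Fin n) y Y)
    (hzy : z < y) (hw : ∀ p : ℕ, p.Prime → ∀ j, p ∣ mj c0 s v u j → ¬ p ∣ w)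
    (gg : G2 z y s v u (f x (e * (w : ℤ) + 2 * x))) :
    (∏ p ∈ (∏ j, mj c0 s v u j).primeFactors, ((ZG f e w s v u p).card : ℝ)) ≤
      ∏ j, ((∏ p ∈ (s j).primeFactors, (1 + Jr (D j) p)) * 2 ^ (v j).primeFactors.card *
        2 ^ (u j).primeFactors.card) := by
  have hs' := (mem_Tup'.1 hs).1
  have hv' := (mem_Tup'.1 hv).1
  have hu' := (mem_Tup'.1 hu).1
  have hbU : (∏ j, mj c0 s v u j).primeFactors = univ.biUnion (fun j => (mj c0 s v u j).primeFactors) := by
    ext p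
    rw [Nat.mem_primeFactors, mem_biUnion]
    constructor
    · rintro ⟨hp, hpm, -⟩
      obtain ⟨j, hj, hpj⟩ := (hp.prime.dvd_finsetProd_iff _).1 hpm
      exact ⟨j, mem_univ j, Nat.mem_primeFactors.2 ⟨hp, hpj, mj_ne_zeroG hs hv hu j⟩⟩
    · rintro ⟨j, -, hj⟩
      rw [Nat.mem_primeFactors] at hj
      exact ⟨hj.1, hj.2.1.trans (dvd_prod_of_mem _ (mem_univ j)),
        prod_ne_zero_iff.2 fun j _ => mj_ne_zeroG hs hv hu j⟩
  rw [hbU, prod_biUnion]
  · apply prod_le_prod
    · intro j _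
      exact prod_nonneg fun _ _ => Nat.cast_nonneg _
    · intro j _
      obtain ⟨c1, c2, c3⟩ := cop_partsG gg hs hv hu j
      have h1 : (mj c0 s v u j).primeFactors =
          ((s j).primeFactors ∪ (v j).primeFactors) ∪ (u j).primeFactors := by
        rw [mj_eq, Nat.primeFactors_mul (by
            have h1 := dv_ne_zero (hs' j)
            have h2 := dv_ne_zero (hv' j)
            positivity) (dv_ne_zero (hu' j)),
          Nat.primeFactors_mul (dv_ne_zero (hs' j)) (pow_ne_zero 2 (dv_ne_zero (hv' j))),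
          Nat.primeFactors_pow _ two_ne_zero]
      have hle : ∀ p ∈ (mj c0 s v u j).primeFactors, ((ZG f e w s v u p).card : ℝ) ≤ R p j ∧
          p.Prime ∧ 7 < p := by
        intro p hp
        have hpp := Nat.prime_of_mem_primeFactors hp
        have hd := Nat.dvd_of_mem_primeFactors hp
        have h7 : 7 < p := lt_of_le_of_lt hz (gg.fmj hu hzy hpp hd).1
        exact ⟨by exact_mod_cast card_ZG hf he hpp h7 (hw p hpp j hd) hd, hpp, h7⟩
      have hd1 : Disjoint (s j).primeFactors (v j).primeFactors :=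
        c1.disjoint_primeFactors
      have hd2 : Disjoint ((s j).primeFactors ∪ (v j).primeFactors) (u j).primeFactors := by
        rw [disjoint_union_left]
        exact ⟨c2.disjoint_primeFactors, c3.disjoint_primeFactors⟩
      rw [h1, prod_union hd2, prod_union hd1]
      have m1 : ∀ p ∈ (s j).primeFactors, p ∈ (mj c0 s v u j).primeFactors := fun p hp => by
        rw [h1]; exact mem_union_left _ (mem_union_left _ hp)
      have m2 : ∀ p ∈ (v j).primeFactors, p ∈ (mj c0 s v u j).primeFactors := fun p hp => by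
        rw [h1]; exact mem_union_left _ (mem_union_right _ hp)
      have m3 : ∀ p ∈ (u j).primeFactors, p ∈ (mj c0 s v u j).primeFactors := fun p hp => by
        rw [h1]; exact mem_union_right _ hp
      apply mul_le_mul
      · apply mul_le_mul
        · apply prod_le_prod (fun _ _ => Nat.cast_nonneg _)
          intro p hp
          obtain ⟨h2, h3, h4⟩ := hle p (m1 p hp)
          refine h2.trans (le_of_eq ?_)
          have h5 := hf.R_eq h3 h4 j
          unfold Jr
          exact_mod_cast h5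
        · rw [← prod_const]
          apply prod_le_prod (fun _ _ => Nat.cast_nonneg _)
          intro p hp
          obtain ⟨h2, h3, h4⟩ := hle p (m2 p hp)
          exact h2.trans (R_powG hf h3 h4 j)
        · exact prod_nonneg fun _ _ => Nat.cast_nonneg _
        · apply prod_nonneg
          intro p hp
          have := abs_le.1 (abs_Jr_le (D j) p)
          linarith
      · rw [← prod_const]
        apply prod_le_prod (fun _ _ => Nat.cast_nonneg _)
        intro p hp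
        obtain ⟨h2, h3, h4⟩ := hle p (m3 p hp)
        exact h2.trans (R_powG hf h3 h4 j)
      · exact prod_nonneg fun _ _ => Nat.cast_nonneg _
      · apply mul_nonneg
        · apply prod_nonneg
          intro p hp
          have := abs_le.1 (abs_Jr_le (D j) p)
          linarith
        · positivity
  · intro j _ l _ hjl
    rw [Function.onFun, disjoint_left]
    intro p h1 h2
    have hp := Nat.prime_of_mem_primeFactors h1
    have h3 := gg.fmj hu hzy hp (Nat.dvd_of_mem_primeFactors h1)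
    have h4 := gg.fmj hu hzy hp (Nat.dvd_of_mem_primeFactors h2)
    exact hjl (gg.un p hp h3.1 j l h3.2 h4.2)

/-- the product over the primes of the modulus -/
lemma prod_prG {φ : Fin n → ℤ} (hs : s ∈ Tup (Fin n) z y) (hv : v ∈ Tup (Fin n) z y)
    (hu : u ∈ Tup (Fin n) y Y) (gg : G2 z y s v u φ) (c : ℕ) :
    ∏ p ∈ (∏ j, mj c0 s v u j).primeFactors.filter (fun p => p ∈ PS z y),
      (p : ℝ) / ((p : ℝ) - c) = ∏ j, ((s j * gw 1 c (s j)) * (v j * gw 1 c (v j))) := by
  have hs' := (mem_Tup'.1 hs).1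
  have hv' := (mem_Tup'.1 hv).1
  have key : ∀ j p, p ∈ (s j).primeFactors ∪ (v j).primeFactors →
      p.Prime ∧ z < p ∧ (p : ℤ) ∣ φ j := by
    intro j p hp
    rcases mem_union.1 hp with hp | hp
    · have h1 := Nat.prime_of_mem_primeFactors hp
      have h2 := gg.fs h1 (Nat.dvd_of_mem_primeFactors hp)
      exact ⟨h1, (mem_PS.1 h2.1).1.1, h2.2.1⟩
    · have h1 := Nat.prime_of_mem_primeFactors hp
      have h2 := gg.fv h1 (Nat.dvd_of_mem_primeFactors hp)
      exact ⟨h1, (mem_PS.1 h2.1).1.1, (dvd_pow_self (p : ℤ) two_ne_zero).trans h2.2⟩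
  rw [mj_primes hs hv hu, prod_biUnion]
  · apply prod_congr rfl
    intro j _
    rw [prod_union, prod_gw (hs' j), prod_gw (hv' j)]
    rw [Finset.disjoint_left]
    intro p h1 h2
    have hp := Nat.prime_of_mem_primeFactors h1
    exact (gg.fs hp (Nat.dvd_of_mem_primeFactors h1)).2.2
      (gg.fv hp (Nat.dvd_of_mem_primeFactors h2)).2
  · intro j _ l _ hjl
    rw [Function.onFun, Finset.disjoint_left]
    intro p h1 h2
    have h3 := key j p h1
    have h4 := key l p h2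
    exact hjl (gg.un p h3.1 h3.2.1 j l h3.2.2 h4.2.2)

end Pool.Agent.V7H33.CY
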