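import Pool.Agent.V7H33.CY.SpecN
import Pool.Agent.W340.RT.SVR2
import Pool.Agent.W29.RT.CNT2

/-!
# The count of `t` with given small prime factors
-/

set_option autoImplicit false

namespace Pool.Agent.V7H33.CY

open Finset Pool.Agent.W262.RK Pool.Agent.W307.RT
open Pool.Agent.W29.RT (dvd_S1 dvd_S2)
open Pool.Agent.W372.RK2 (sq_pow_dvd prod_gw)

/-- the one form `t` -/
def ft (t : ℕ) : Unit → ℤ := fun _ => (t : ℤ)

/-- the conditions on `t` -/
def Tc (z y s v u t : ℕ) : Prop := S1 z y (ft t) () = s ∧ S2 z y (ft t) () = v ∧ u ∣ t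

variable {z y Y s v u t : ℕ}

lemma Tc.ds (h : Tc z y s v u t) {p : ℕ} (hp : p.Prime) (hd : p ∣ s) :
    p ∈ PS z y ∧ p ∣ t ∧ ¬ p ^ 2 ∣ t := by
  rw [← h.1] at hd
  obtain ⟨h1, h2, h3⟩ := (dvd_S1 hp).1 hd
  refine ⟨h1, Int.natCast_dvd_natCast.1 h2, fun h4 => h3 ?_⟩
  have := Int.natCast_dvd_natCast.2 h4
  push_cast at this
  exact this

lemma Tc.dv (h : Tc z y s v u t) {p : ℕ} (hp : p.Prime) (hd : p ∣ v) :
    p ∈ PS z y ∧ p ^ 2 ∣ t := by
  rw [← h.2.1] at hd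
  obtain ⟨h1, h2⟩ := (dvd_S2 hp).1 hd
  refine ⟨h1, ?_⟩
  have h3 : ((p ^ 2 : ℕ) : ℤ) ∣ (t : ℤ) := by push_cast; exact h2
  exact Int.natCast_dvd_natCast.1 h3

lemma Tc.cop (h : Tc z y s v u t) (hu : u ∈ (PP y Y).divisors) :
    s.Coprime v ∧ (s * v ^ 2).Coprime u := by
  have h1 : s.Coprime v := by
    apply Nat.coprime_of_dvd
    intro p hp hps hpv
    exact (h.ds hp hps).2.2 (h.dv hp hpv).2
  have h2 : s.Coprime u := by
    apply Nat.coprime_of_dvd
    intro p hp hps hpu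
    have h3 := (mem_PS.1 (h.ds hp hps).1).1.2
    have h4 := (dv_prime hu hp hpu).1
    omega
  have h3 : v.Coprime u := by
    apply Nat.coprime_of_dvd
    intro p hp hps hpu
    have h3 := (mem_PS.1 (h.dv hp hps).1).1.2
    have h4 := (dv_prime hu hp hpu).1
    omega
  exact ⟨h1, Nat.Coprime.mul_left h2 (h3.pow_left 2)⟩

lemma Tc.dvd (h : Tc z y s v u t) (hs : s ∈ (PP z y).divisors) (hv : v ∈ (PP z y).divisors)
    (hu : u ∈ (PP y Y).divisors) : s * v ^ 2 * u ∣ t := by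
  obtain ⟨c1, c2⟩ := h.cop hu
  have h1 : s ∣ t := by
    have h2 := sq_pow_dvd (dv_squarefree hs) 1 (t : ℤ) (fun p hp hpd => by
      rw [pow_one]
      exact Int.natCast_dvd_natCast.2 (h.ds hp hpd).2.1)
    rw [pow_one] at h2
    exact Int.natCast_dvd_natCast.1 h2
  have h2 : v ^ 2 ∣ t := by
    have h2 := sq_pow_dvd (dv_squarefree hv) 2 (t : ℤ) (fun p hp hpd => by
      have := Int.natCast_dvd_natCast.2 (h.dv hp hpd).2
      push_cast at this
      exact this)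
    have h3 : ((v ^ 2 : ℕ) : ℤ) ∣ (t : ℤ) := by push_cast; exact h2
    exact Int.natCast_dvd_natCast.1 h3
  exact c2.mul_dvd_of_dvd_of_dvd ((c1.pow_right 2).mul_dvd_of_dvd_of_dvd h1 h2) h.2.2

open Classical in
/-- the trivial bound -/
lemma tc_triv (hs : s ∈ (PP z y).divisors) (hv : v ∈ (PP z y).divisors)
    (hu : u ∈ (PP y Y).divisors) (T : ℕ) :
    (((Icc 1 T).filter (fun t => Tc z y s v u t)).card : ℝ) ≤ T / ((s * v ^ 2 * u : ℕ) : ℝ) := by
  have h1 : ((Icc 1 T).filter (fun t => Tc z y s v u t)).card ≤ T / (s * v ^ 2 * u) := by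
    rw [← Nat.Ioc_filter_dvd_card_eq_div]
    apply card_le_card
    intro t ht
    rw [mem_filter, mem_Icc] at ht
    rw [mem_filter, mem_Ioc]
    exact ⟨⟨by omega, ht.1.2⟩, ht.2.dvd hs hv hu⟩
  calc (((Icc 1 T).filter (fun t => Tc z y s v u t)).card : ℝ) ≤ ((T / (s * v ^ 2 * u) : ℕ) : ℝ) := by
        exact_mod_cast h1
    _ ≤ _ := Nat.cast_div_le

open Classical in
/-- the sieve bound -/
lemma tc_sieve (z : ℕ) (hz : 4 ≤ z) : ∃ (C : ℝ) (K y0 : ℕ), 0 ≤ C ∧ 1 ≤ K ∧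
    ∀ T y Y : ℕ, y0 ≤ y → z < y → y ^ K ≤ T → ∀ s ∈ (PP z y).divisors,
    ∀ v ∈ (PP z y).divisors, ∀ u ∈ (PP y Y).divisors, (s * v ^ 2 * u) ^ 4 ≤ T →
    (((Icc 1 T).filter (fun t => Tc z y s v u t)).card : ℝ) ≤
      C * (T / ((s * v ^ 2 * u : ℕ) : ℝ)) * (((s : ℝ) * gw 1 1 s) * ((v : ℝ) * gw 1 1 v)) /
        Real.log y := by
  obtain ⟨C, K, y0, hC, hK, h⟩ := Pool.Agent.W340.RT.SVR2.svr2 Unit z (by simpa using hz)
  refine ⟨C, K, y0, hC, hK, ?_⟩
  intro T y Y hy hzy hyT s hs v hv u hu hm4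
  have hs0 := dv_ne_zero hs
  have hv0 := dv_ne_zero hv
  have hu0 := dv_ne_zero hu
  obtain ⟨m, hm⟩ : ∃ m, m = s * v ^ 2 * u := ⟨_, rfl⟩
  rw [← hm] at hm4 ⊢
  have hm0 : m ≠ 0 := by rw [hm]; positivity
  have hgs : 0 ≤ gw 1 1 s := gw_nonneg zero_le_one (by omega) hs
  have hgv : 0 ≤ gw 1 1 v := gw_nonneg zero_le_one (by omega) hv
  have hlog : 0 ≤ Real.log y := Real.log_natCast_nonneg y
  rcases ((Icc 1 T).filter (fun t => Tc z y s v u t)).eq_empty_or_nonempty with he | ⟨t0, ht0⟩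
  · rw [he, card_empty, Nat.cast_zero]
    positivity
  have ht0' := (mem_filter.1 ht0).2
  have h1 := h T y hy hzy hyT (fun _ => 1) (fun _ => 0) m m 0 (Nat.one_le_iff_ne_zero.2 hm0)
    dvd_rfl hm0 hm4 (fun p hp _ => ⟨fun _ hd => by
      have h2 := (mem_PS.1 hp).2
      have h3 : (p : ℤ) ∣ ((1 : ℕ) : ℤ) := by exact_mod_cast hd
      exact h2.one_lt.ne' (Nat.dvd_one.1 (Int.natCast_dvd_natCast.1 h3)),
      fun j l hjl => absurd (Subsingleton.elim j l) hjl⟩)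
  have hcard : (Fintype.card Unit : ℕ) = 1 := by simp
  rw [hcard, pow_one] at h1
  have h2 : (((Icc 1 T).filter (fun t => Tc z y s v u t)).card : ℝ) ≤
      (((Icc 1 T).filter (fun t : ℕ => t ≡ 0 [MOD m] ∧ ∀ p ∈ PS z y, ¬ p ∣ m →
      ∀ j : Unit, ¬ (p : ℤ) ∣ ff (fun _ => 1) (fun _ => 0) t j)).card : ℝ) := by
    rw [Nat.cast_le]
    apply card_le_card
    intro t ht
    rw [mem_filter] at ht ⊢
    refine ⟨ht.1, ?_, ?_⟩
    · rw [hm]
      exact (Nat.modEq_zero_iff_dvd).2 (ht.2.dvd hs hv hu)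
    · intro p hp hpm j hd
      have hp' := (mem_PS.1 hp).2
      apply hpm
      have h3 : (p : ℤ) ∣ ft t () := by
        have e : ff (fun _ : Unit => (1 : ℤ)) (fun _ => 0) (t : ℤ) j = ft t () := by
          simp [ff, ft]
        rwa [e] at hd
      rw [hm]
      by_cases h4 : (p : ℤ) ^ 2 ∣ ft t ()
      · have h5 : p ∣ v := by
          rw [← ht.2.2.1]
          exact (dvd_S2 hp').2 ⟨hp, h4⟩
        exact ((h5.pow two_ne_zero).mul_left _).mul_right _
      · have h5 : p ∣ s := by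
          rw [← ht.2.1]
          exact (dvd_S1 hp').2 ⟨hp, h3, h4⟩
        exact (h5.mul_right _).mul_right _
  refine h2.trans (h1.trans (le_of_eq ?_))
  congr 2
  have e1 : m.primeFactors.filter (fun p => p ∈ PS z y) = s.primeFactors ∪ v.primeFactors := by
    ext p
    rw [mem_filter, mem_union, Nat.mem_primeFactors, Nat.mem_primeFactors, Nat.mem_primeFactors]
    constructor
    · rintro ⟨⟨hp, hd, -⟩, hP⟩
      rw [hm] at hd
      rcases hp.dvd_mul.1 hd with hd | hd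
      · rcases hp.dvd_mul.1 hd with hd | hd
        · exact Or.inl ⟨hp, hd, hs0⟩
        · exact Or.inr ⟨hp, hp.dvd_of_dvd_pow hd, hv0⟩
      · exfalso
        have h3 := (dv_prime hu hp hd).1
        have h4 := (mem_PS.1 hP).1.2
        omega
    · rintro (⟨hp, hd, -⟩ | ⟨hp, hd, -⟩)
      · exact ⟨⟨hp, by rw [hm]; exact (hd.mul_right _).mul_right _, hm0⟩, (ht0'.ds hp hd).1⟩
      · exact ⟨⟨hp, by rw [hm]; exact ((hd.pow two_ne_zero).mul_left _).mul_right _, hm0⟩,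
          (ht0'.dv hp hd).1⟩
  rw [e1, prod_union (ht0'.cop hu).1.disjoint_primeFactors]
  have e2 := prod_gw (c := 1) hs
  have e3 := prod_gw (c := 1) hv
  rw [e2, e3]

/-- products of weights -/
lemma gw_mul_le {c c' d : ℕ} (hz : c + c' ≤ z) (hd : d ∈ (PP z y).divisors) :
    (d : ℝ) * gw 1 c d * gw 1 c' d ≤ gw 1 (c + c') d := by
  have h1 : (d : ℝ) = ∏ p ∈ d.primeFactors, (p : ℝ) := by
    rw [← Nat.cast_prod, Nat.prod_primeFactors_of_squarefree (dv_squarefree hd)]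
  have h2 : (d : ℝ) * gw 1 c d * gw 1 c' d =
      ∏ p ∈ d.primeFactors, ((p : ℝ) * (1 / ((p : ℝ) - c)) * (1 / ((p : ℝ) - c'))) := by
    rw [prod_mul_distrib, prod_mul_distrib, ← h1]
    rfl
  rw [h2]
  unfold gw
  have hc0 : (0 : ℝ) ≤ c := Nat.cast_nonneg c
  have hc0' : (0 : ℝ) ≤ c' := Nat.cast_nonneg c'
  have key : ∀ p ∈ d.primeFactors, (c : ℝ) + c' < p := by
    intro p hp
    have h3 := (dv_prime hd (Nat.prime_of_mem_primeFactors hp) (Nat.dvd_of_mem_primeFactors hp)).1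
    exact_mod_cast (by omega : c + c' < p)
  apply prod_le_prod
  · intro p hp
    have h3 := key p hp
    have h4 : 0 < (p : ℝ) - c := by linarith
    have h5 : 0 < (p : ℝ) - c' := by linarith
    positivity
  · intro p hp
    have h3 := key p hp
    have h4 : 0 < (p : ℝ) - c := by linarith
    have h5 : 0 < (p : ℝ) - c' := by linarith
    have h6 : 0 < (p : ℝ) - ((c + c' : ℕ) : ℝ) := by push_cast; linarith
    rw [mul_one_div, mul_one_div, div_div, div_le_div_iff₀ (by positivity) h6]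
    push_cast
    nlinarith [mul_nonneg hc0 hc0']

lemma gw_mono {c c' d : ℕ} (hcc : c ≤ c') (hz : c' ≤ z) (hd : d ∈ (PP z y).divisors) :
    gw 1 c d ≤ gw 1 c' d := by
  unfold gw
  have hcr : (c : ℝ) ≤ c' := by exact_mod_cast hcc
  have key : ∀ p ∈ d.primeFactors, (c' : ℝ) < p := by
    intro p hp
    have h3 := (dv_prime hd (Nat.prime_of_mem_primeFactors hp) (Nat.dvd_of_mem_primeFactors hp)).1
    exact_mod_cast (by omega : c' < p)
  apply prod_le_prod
  · intro p hp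
    have h3 := key p hp
    have h4 : 0 < (p : ℝ) - c := by linarith
    positivity
  · intro p hp
    have h3 := key p hp
    have h4 : 0 < (p : ℝ) - c := by linarith
    have h5 : 0 < (p : ℝ) - c' := by linarith
    exact one_div_le_one_div_of_le h5 (by linarith)

end Pool.Agent.V7H33.CY
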