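import Pool.Agent.V7H33.CY.N4a
import Pool.Agent.V7H33.CY.N4b

/-!
# The counting theorem for the curves with a point of order four
-/

set_option autoImplicit false

namespace Pool.Agent.V7H33.CY

open Finset Pool.Agent.W262.RK Pool.Agent.W307.RT Pool.Agent.V7H45.G8 Pool.Agent.V7H45.CY
open Pool.Agent.W372.RK2 (mem_Tup' prod_gw)

open Classical in
/-- the values of `t` -/
noncomputable def Ts (z y s v u T : ℕ) : Finset ℕ := (Icc 1 T).filter (fun t => Tc z y s v u t)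

/-- step 1: the sum over the weighted box -/
lemma step1 (e : ℤ) (X z y : ℕ) (s v u : Fin 3 → ℕ) (a : ℕ) :
    ∑ ω ∈ (W3 e X).filter (fun ω => S1 z y (f3 e ω) = s ∧ S2 z y (f3 e ω) = v ∧
      (∀ j, (u j : ℤ) ∣ f3 e ω j) ∧ spl z y e ω = a), (16 : ℝ) ^ ω.1.primeFactors.card ≤
    ∑ g ∈ Icc 1 (X ^ 2), (16 : ℝ) ^ g.primeFactors.card *
      ∑ t ∈ Ts z y (s 0) (v 0) (u 0) (X ^ 2 / g), (cn e z y s v u a (X ^ 4 / g) g t : ℝ) := by
  classical
  obtain ⟨F, hF⟩ : ∃ F, F = (W3 e X).filter (fun ω => S1 z y (f3 e ω) = s ∧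
    S2 z y (f3 e ω) = v ∧ (∀ j, (u j : ℤ) ∣ f3 e ω j) ∧ spl z y e ω = a) := ⟨_, rfl⟩
  rw [← hF]
  have hmem : ∀ ω ∈ F, (1 ≤ ω.1 ∧ ω.1 ≤ X ^ 2) ∧ 1 ≤ ω.2.1 ∧ 1 ≤ ω.2.2 ∧ Ok3 e ω ∧
      ω.1 * ω.2.1 ≤ X ^ 2 ∧ ω.1 * ω.2.2 ≤ X ^ 4 ∧ S1 z y (f3 e ω) = s ∧
      S2 z y (f3 e ω) = v ∧ (∀ j, (u j : ℤ) ∣ f3 e ω j) ∧ spl z y e ω = a := by
    intro ω hω
    rw [hF, mem_filter] at hω
    obtain ⟨h1, h2⟩ := hω
    unfold W3 at h1
    rw [mem_filter, mem_product, mem_product, mem_Icc, mem_Icc, mem_Icc] at h1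
    exact ⟨h1.1.1, h1.1.2.1.1, h1.1.2.2.1, h1.2.1, h1.2.2.1, h1.2.2.2, h2⟩
  have hmaps : ∀ ω ∈ F, ω.1 ∈ Icc 1 (X ^ 2) := fun ω hω => mem_Icc.2 (hmem ω hω).1
  rw [← sum_fiberwise_of_maps_to hmaps]
  apply sum_le_sum
  intro g hg
  have hg1 : 1 ≤ g := (mem_Icc.1 hg).1
  have e1 : ∑ ω ∈ F.filter (fun ω => ω.1 = g), (16 : ℝ) ^ ω.1.primeFactors.card =
      (16 : ℝ) ^ g.primeFactors.card * ((F.filter (fun ω => ω.1 = g)).card : ℝ) := by
    rw [sum_congr rfl (fun ω hω => by rw [(mem_filter.1 hω).2] :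
      ∀ ω ∈ F.filter (fun ω => ω.1 = g), (16 : ℝ) ^ ω.1.primeFactors.card =
        (16 : ℝ) ^ g.primeFactors.card), sum_const, nsmul_eq_mul, mul_comm]
  rw [e1]
  apply mul_le_mul_of_nonneg_left _ (by positivity)
  have hm2 : ∀ ω ∈ F.filter (fun ω => ω.1 = g), ω.2.1 ∈ Ts z y (s 0) (v 0) (u 0) (X ^ 2 / g) := by
    intro ω hω
    rw [mem_filter] at hω
    obtain ⟨h1, h2, h3, h4, h5, h6, h7, h8, h9, h10⟩ := hmem ω hω.1
    unfold Ts
    rw [mem_filter, mem_Icc, Nat.le_div_iff_mul_le hg1]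
    refine ⟨⟨h2, by rw [← hω.2, mul_comm]; exact h5⟩, ?_, ?_, ?_⟩
    · rw [← congrFun h7 0]
      rfl
    · rw [← congrFun h8 0]
      rfl
    · exact Int.natCast_dvd_natCast.1 (h9 0)
  rw [card_eq_sum_card_fiberwise (f := fun ω : ℕ × ℕ × ℕ => ω.2.1)
    (t := Ts z y (s 0) (v 0) (u 0) (X ^ 2 / g)) hm2, Nat.cast_sum]
  apply sum_le_sum
  intro t ht
  rw [Nat.cast_le]
  unfold cn
  apply card_le_card_of_injOn (fun ω : ℕ × ℕ × ℕ => ω.2.2)
  · intro ω hω
    rw [mem_coe, mem_filter, mem_filter] at hω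
    obtain ⟨⟨hF', hg'⟩, ht'⟩ := hω
    obtain ⟨h1, h2, h3, h4, h5, h6, h7, h8, h9, h10⟩ := hmem ω hF'
    have hω' : ω = (g, t, ω.2.2) := by
      rw [← hg', ← ht']
    rw [mem_coe, mem_filter, mem_Icc, Nat.le_div_iff_mul_le hg1, ← hω']
    exact ⟨⟨h3, by rw [← hg', mul_comm]; exact h6⟩, h4, h7, h8, h9, h10⟩
  · intro ω hω ω' hω' h
    rw [mem_coe, mem_filter, mem_filter] at hω hω'
    exact Prod.ext (hω.1.2.trans hω'.1.2.symm) (Prod.ext (hω.2.trans hω'.2.symm) h)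

lemma one_le_gw {z y d : ℕ} (hz : 2 ≤ z) (hd : d ∈ (PP z y).divisors) :
    1 ≤ (d : ℝ) * gw 1 1 d := by
  rw [← prod_gw hd]
  have h1 : ∀ p ∈ d.primeFactors, (1 : ℝ) ≤ (p : ℝ) / ((p : ℝ) - (1 : ℕ)) := by
    intro p hp
    have h3 := (dv_prime hd (Nat.prime_of_mem_primeFactors hp) (Nat.dvd_of_mem_primeFactors hp)).1
    have h4 : (2 : ℝ) < p := by exact_mod_cast lt_of_le_of_lt hz h3
    push_cast
    rw [le_div_iff₀ (by linarith)]
    linarith
  calc (1 : ℝ) = ∏ p ∈ d.primeFactors, (1 : ℝ) := by rw [prod_const_one]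
    _ ≤ _ := prod_le_prod (fun _ _ => zero_le_one) h1

/-- the factors `s 0`, `v 0`, `u 0` -/
lemma alg1 (a s0 v0 v1 v2 u0 u1 u2 g0 g1 g2 k0 k1 k2 x y : ℝ) (h1 : s0 ≠ 0) (h2 : v0 ≠ 0)
    (h3 : u0 ≠ 0) :
    a * (s0 * g0) * (v0 * k0) * (g1 * g2) * ((k1 / v1) * (k2 / v2)) * ((1 / u1) * (1 / u2)) *
      ((s0 * x) * (v0 * y)) / (s0 * v0 ^ 2 * u0) =
    a * ((s0 * g0 * x) * g1 * g2) * (((v0 * k0 * y) / v0) * (k1 / v1) * (k2 / v2)) *
      ((1 / u0) * (1 / u1) * (1 / u2)) := by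
  have e : ((s0 * g0) * (v0 * k0) * ((s0 * x) * (v0 * y))) / (s0 * v0 ^ 2 * u0) =
      (s0 * g0 * x) * ((v0 * k0 * y) / v0) * (1 / u0) := by
    field_simp
  calc _ = a * (g1 * g2) * ((k1 / v1) * (k2 / v2)) * ((1 / u1) * (1 / u2)) *
        (((s0 * g0) * (v0 * k0) * ((s0 * x) * (v0 * y))) / (s0 * v0 ^ 2 * u0)) := by ring
    _ = a * (g1 * g2) * ((k1 / v1) * (k2 / v2)) * ((1 / u1) * (1 / u2)) *
        ((s0 * g0 * x) * ((v0 * k0 * y) / v0) * (1 / u0)) := by rw [e]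
    _ = _ := by ring

set_option maxHeartbeats 4000000 in
theorem t_N4 (hNG : S_NG) : S_N4 := by
  classical
  intro e he
  obtain ⟨c1, z1, hNG⟩ := hNG e he
  refine ⟨c1 + 1, max z1 (c1 + 4), fun z hz => ?_⟩
  have hz1 : z1 ≤ z := (le_max_left _ _).trans hz
  have hzc : c1 + 4 ≤ z := (le_max_right _ _).trans hz
  obtain ⟨C1, K1, y1, hC1, hK1, hNG⟩ := hNG z hz1
  obtain ⟨C2, K2, y2, hC2, hK2, hT⟩ := tc_sieve z (by omega)
  obtain ⟨C3, hC3, hS1, hS2⟩ := sum_omega 64 (by norm_num)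
  refine ⟨C1 * ((C2 + 1) * C3), max (max K1 K2) 2, max (max y1 y2) 3, by positivity,
    by omega, ?_⟩
  intro X y Y hy hzy hX s hs v hv u hu hsvu a ha
  have hy1 : y1 ≤ y := by omega
  have hy2 : y2 ≤ y := by omega
  have hy3 : 3 ≤ y := by omega
  have hy0 : 0 < y := by omega
  have hX1 : y ^ K1 ≤ X := le_trans (Nat.pow_le_pow_right hy0 (by omega)) hX
  have hX2 : y ^ K2 ≤ X := le_trans (Nat.pow_le_pow_right hy0 (by omega)) hX
  have hX3 : y ^ 2 ≤ X := le_trans (Nat.pow_le_pow_right hy0 (by omega)) hX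
  have hXpos : 1 ≤ X := le_trans (Nat.one_le_pow _ _ hy0) hX3
  have hs' := (mem_Tup'.1 hs).1
  have hv' := (mem_Tup'.1 hv).1
  have hu' := (mem_Tup'.1 hu).1
  have hyr : (3 : ℝ) ≤ y := by exact_mod_cast hy3
  have hl1 : 1 < Real.log y := by
    rw [Real.lt_log_iff_exp_lt (by linarith)]
    have := Real.exp_one_lt_d9
    linarith
  have hlpos : 0 < Real.log y := by linarith
  have hly : Real.log y ≤ y := by
    have := Real.log_le_sub_one_of_pos (by linarith : (0 : ℝ) < y)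
    linarith
  -- the modulus
  obtain ⟨m, hm⟩ : ∃ m, m = s 0 * v 0 ^ 2 * u 0 := ⟨_, rfl⟩
  have hs0 := dv_pos (hs' 0)
  have hv0 := dv_pos (hv' 0)
  have hu0 := dv_pos (hu' 0)
  have hmpos : 0 < m := by rw [hm]; positivity
  have hm4 : m ^ 4 ≤ X := by
    refine le_trans ?_ hsvu
    have h1 : s 0 * v 0 * u 0 ≤ ∏ j, s j * v j * u j := by
      apply Finset.single_le_prod' (f := fun j => s j * v j * u j) (fun j _ => ?_) (mem_univ 0)
      have h1 := dv_pos (hs' j)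
      have h2 := dv_pos (hv' j)
      have h3 := dv_pos (hu' j)
      exact Nat.succ_le_of_lt (by positivity)
    have h2 : m ≤ (s 0 * v 0 * u 0) ^ 2 := by
      rw [hm]
      calc s 0 * v 0 ^ 2 * u 0 ≤ (s 0 * s 0) * v 0 ^ 2 * (u 0 * u 0) := by
            apply Nat.mul_le_mul
            · apply Nat.mul_le_mul_right
              nlinarith
            · nlinarith
        _ = (s 0 * v 0 * u 0) ^ 2 := by ring
    calc m ^ 4 ≤ ((s 0 * v 0 * u 0) ^ 2) ^ 4 := Nat.pow_le_pow_left h2 4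
      _ = (s 0 * v 0 * u 0) ^ 8 := by rw [← pow_mul]
      _ ≤ _ := Nat.pow_le_pow_left h1 8
  -- weights
  have hgs : ∀ j, 0 ≤ gw 1 c1 (s j) := fun j => gw_nonneg zero_le_one (by omega) (hs' j)
  have hgv : ∀ j, 0 ≤ gw 1 c1 (v j) := fun j => gw_nonneg zero_le_one (by omega) (hv' j)
  have hgs1 : 0 ≤ gw 1 1 (s 0) := gw_nonneg zero_le_one (by omega) (hs' 0)
  have hgv1 : 0 ≤ gw 1 1 (v 0) := gw_nonneg zero_le_one (by omega) (hv' 0)
  obtain ⟨R, hR⟩ : ∃ R : ℝ, R = (1 / 2) ^ (s 0).primeFactors.card *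
      ((s 0 : ℝ) * gw 1 c1 (s 0)) * ((v 0 : ℝ) * gw 1 c1 (v 0)) *
      (gw 1 c1 (s 1) * gw 1 c1 (s 2)) * ((gw 1 c1 (v 1) / v 1) * (gw 1 c1 (v 2) / v 2)) *
      ((1 / (u 1 : ℝ)) * (1 / (u 2 : ℝ))) := ⟨_, rfl⟩
  have hR0 : 0 ≤ R := by
    rw [hR]
    have h1 := hgs 0
    have h2 := hgs 1
    have h3 := hgs 2
    have h4 := hgv 0
    have h5 := hgv 1
    have h6 := hgv 2
    positivity
  obtain ⟨Q, hQ⟩ : ∃ Q : ℝ, Q = ((s 0 : ℝ) * gw 1 1 (s 0)) * ((v 0 : ℝ) * gw 1 1 (v 0)) :=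
    ⟨_, rfl⟩
  have hQ1 : 1 ≤ Q := by
    rw [hQ]
    exact one_le_mul_of_one_le_of_one_le (one_le_gw (by omega) (hs' 0))
      (one_le_gw (by omega) (hv' 0))
  have hmr : (0 : ℝ) < m := by exact_mod_cast hmpos
  -- the bound for one g
  have hone : ∀ g ∈ Icc 1 (X ^ 2), (16 : ℝ) ^ g.primeFactors.card *
      ∑ t ∈ Ts z y (s 0) (v 0) (u 0) (X ^ 2 / g), (cn e z y s v u a (X ^ 4 / g) g t : ℝ) ≤
      (C1 * (X : ℝ) ^ 6 * R / m / (Real.log y) ^ 2) *
        ((64 : ℝ) ^ g.primeFactors.card / (g : ℝ) ^ 2) *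
        (if X < g then 1 else C2 * Q / Real.log y) := by
    intro g hg
    rw [mem_Icc] at hg
    have hg1 : 1 ≤ g := hg.1
    have hgr : (0 : ℝ) < g := by exact_mod_cast hg1
    obtain ⟨B, hB⟩ : ∃ B : ℝ, B = C1 * ((X : ℝ) ^ 4 / g) * 4 ^ g.primeFactors.card * R /
      (Real.log y) ^ 2 := ⟨_, rfl⟩
    have hB0 : 0 ≤ B := by rw [hB]; positivity
    have h1 : ∀ t ∈ Ts z y (s 0) (v 0) (u 0) (X ^ 2 / g),
        (cn e z y s v u a (X ^ 4 / g) g t : ℝ) ≤ B := by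
      intro t ht
      unfold Ts at ht
      rw [mem_filter, mem_Icc, Nat.le_div_iff_mul_le hg1] at ht
      refine (hNG X y Y hy1 hzy hX1 s hs v hv u hu hsvu a ha g t hg1 ht.1.1
        (by rw [mul_comm]; exact ht.1.2)).trans (le_of_eq ?_)
      rw [hB, hR]
      ring
    have h2 : ∑ t ∈ Ts z y (s 0) (v 0) (u 0) (X ^ 2 / g),
        (cn e z y s v u a (X ^ 4 / g) g t : ℝ) ≤
        ((Ts z y (s 0) (v 0) (u 0) (X ^ 2 / g)).card : ℝ) * B := by
      refine (sum_le_sum h1).trans ?_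
      rw [sum_const, nsmul_eq_mul]
    have hdiv : ((X ^ 2 / g : ℕ) : ℝ) ≤ (X : ℝ) ^ 2 / g := by
      refine Nat.cast_div_le.trans (le_of_eq ?_)
      push_cast
      rfl
    have h3 : ((Ts z y (s 0) (v 0) (u 0) (X ^ 2 / g)).card : ℝ) ≤
        ((X : ℝ) ^ 2 / g / m) * (if X < g then 1 else C2 * Q / Real.log y) := by
      split_ifs with hXg
      · rw [mul_one]
        have h4 := tc_triv (hs' 0) (hv' 0) (hu' 0) (X ^ 2 / g)
        rw [← hm] at h4
        refine le_trans h4 ?_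
        exact div_le_div_of_nonneg_right hdiv hmr.le
      · have hgX : g ≤ X := not_lt.1 hXg
        have hXT : X ≤ X ^ 2 / g := by
          rw [Nat.le_div_iff_mul_le hg1, sq]
          exact Nat.mul_le_mul_left X hgX
        have h4 := hT (X ^ 2 / g) y Y hy2 hzy (hX2.trans hXT) (s 0) (hs' 0) (v 0) (hv' 0) (u 0)
          (hu' 0) (by rw [← hm]; exact hm4.trans hXT)
        rw [← hm, ← hQ] at h4
        refine le_trans h4 ?_
        have h5 : C2 * (((X ^ 2 / g : ℕ) : ℝ) / m) * Q / Real.log y =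
            (((X ^ 2 / g : ℕ) : ℝ) / m) * (C2 * Q / Real.log y) := by ring
        rw [h5]
        apply mul_le_mul_of_nonneg_right _ (by positivity)
        exact div_le_div_of_nonneg_right hdiv hmr.le
    calc (16 : ℝ) ^ g.primeFactors.card *
        ∑ t ∈ Ts z y (s 0) (v 0) (u 0) (X ^ 2 / g), (cn e z y s v u a (X ^ 4 / g) g t : ℝ)
        ≤ (16 : ℝ) ^ g.primeFactors.card *
          (((X : ℝ) ^ 2 / g / m) * (if X < g then 1 else C2 * Q / Real.log y) * B) := by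
          apply mul_le_mul_of_nonneg_left _ (by positivity)
          exact h2.trans (mul_le_mul_of_nonneg_right h3 hB0)
      _ = _ := by
          have h64 : (64 : ℝ) ^ g.primeFactors.card =
              (16 : ℝ) ^ g.primeFactors.card * 4 ^ g.primeFactors.card := by
            rw [← mul_pow]; norm_num
          rw [hB, h64]
          have hg2 : (g : ℝ) ≠ 0 := hgr.ne'
          field_simp
  obtain ⟨D, hD⟩ : ∃ D : ℝ, D = C1 * (X : ℝ) ^ 6 * R / m / (Real.log y) ^ 2 := ⟨_, rfl⟩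
  have hD0 : 0 ≤ D := by rw [hD]; positivity
  rw [← hD] at hone
  -- the sum over g
  have hsum : ∑ g ∈ Icc 1 (X ^ 2), D * ((64 : ℝ) ^ g.primeFactors.card / (g : ℝ) ^ 2) *
        (if X < g then 1 else C2 * Q / Real.log y) ≤ D * ((C2 + 1) * C3 * (Q / Real.log y)) := by
    have hd := sum_filter_add_sum_filter_not (Icc 1 (X ^ 2)) (fun g => X < g)
      (fun g => D * ((64 : ℝ) ^ g.primeFactors.card / (g : ℝ) ^ 2) *
        (if X < g then 1 else C2 * Q / Real.log y))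
    rw [← hd]
    have hQl : 0 ≤ Q / Real.log y := by positivity
    have h1 : ∑ g ∈ (Icc 1 (X ^ 2)).filter (fun g => X < g),
        D * ((64 : ℝ) ^ g.primeFactors.card / (g : ℝ) ^ 2) *
        (if X < g then 1 else C2 * Q / Real.log y) ≤ D * (C3 * (Q / Real.log y)) := by
      have h2 : ∑ g ∈ (Icc 1 (X ^ 2)).filter (fun g => X < g),
          D * ((64 : ℝ) ^ g.primeFactors.card / (g : ℝ) ^ 2) *
          (if X < g then 1 else C2 * Q / Real.log y) =
          D * ∑ g ∈ (Icc 1 (X ^ 2)).filter (fun g => X < g),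
            ((64 : ℕ) : ℝ) ^ g.primeFactors.card / (g : ℝ) ^ 2 := by
        rw [mul_sum]
        apply sum_congr rfl
        intro g hg
        rw [if_pos (mem_filter.1 hg).2, mul_one]
        norm_num
      rw [h2]
      apply mul_le_mul_of_nonneg_left _ hD0
      refine (hS2 (X ^ 2) X hXpos).trans ?_
      rw [div_eq_mul_one_div]
      apply mul_le_mul_of_nonneg_left _ hC3.le
      have hyX : (y : ℝ) ≤ Real.sqrt X := by
        apply Real.le_sqrt_of_sq_le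
        exact_mod_cast hX3
      calc 1 / Real.sqrt X ≤ 1 / Real.log y :=
            one_div_le_one_div_of_le hlpos (hly.trans hyX)
        _ ≤ Q / Real.log y := div_le_div_of_nonneg_right hQ1 hlpos.le
    have h3 : ∑ g ∈ (Icc 1 (X ^ 2)).filter (fun g => ¬ X < g),
        D * ((64 : ℝ) ^ g.primeFactors.card / (g : ℝ) ^ 2) *
        (if X < g then 1 else C2 * Q / Real.log y) ≤ D * (C3 * (C2 * (Q / Real.log y))) := by
      have h2 : ∑ g ∈ (Icc 1 (X ^ 2)).filter (fun g => ¬ X < g),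
          D * ((64 : ℝ) ^ g.primeFactors.card / (g : ℝ) ^ 2) *
          (if X < g then 1 else C2 * Q / Real.log y) =
          D * ((∑ g ∈ (Icc 1 (X ^ 2)).filter (fun g => ¬ X < g),
            ((64 : ℕ) : ℝ) ^ g.primeFactors.card / (g : ℝ) ^ 2) * (C2 * (Q / Real.log y))) := by
        rw [sum_mul, mul_sum]
        apply sum_congr rfl
        intro g hg
        rw [if_neg (mem_filter.1 hg).2]
        push_cast
        ring
      rw [h2]
      apply mul_le_mul_of_nonneg_left _ hD0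
      apply mul_le_mul_of_nonneg_right _ (by positivity)
      refine le_trans ?_ (hS1 (X ^ 2))
      apply sum_le_sum_of_subset_of_nonneg (filter_subset _ _)
      intro g _ _
      positivity
    calc _ ≤ D * (C3 * (Q / Real.log y)) + D * (C3 * (C2 * (Q / Real.log y))) := add_le_add h1 h3
      _ = _ := by ring
  refine (step1 e X z y s v u a).trans ((sum_le_sum hone).trans (hsum.trans ?_))
  -- the final comparison
  have hA0 := gw_mul_le (z := z) (y := y) (c := c1) (c' := 1) (by omega) (hs' 0)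
  have hA1 := gw_mono (z := z) (y := y) (Nat.le_succ c1) (by omega) (hs' 1)
  have hA2 := gw_mono (z := z) (y := y) (Nat.le_succ c1) (by omega) (hs' 2)
  have hB0 := gw_mul_le (z := z) (y := y) (c := c1) (c' := 1) (by omega) (hv' 0)
  have hB1 := gw_mono (z := z) (y := y) (Nat.le_succ c1) (by omega) (hv' 1)
  have hB2 := gw_mono (z := z) (y := y) (Nat.le_succ c1) (by omega) (hv' 2)
  have hgs' : ∀ j, 0 ≤ gw 1 (c1 + 1) (s j) := fun j => gw_nonneg zero_le_one (by omega) (hs' j)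
  have hgv' : ∀ j, 0 ≤ gw 1 (c1 + 1) (v j) := fun j => gw_nonneg zero_le_one (by omega) (hv' j)
  have hvr : ∀ j, (0 : ℝ) < v j := fun j => by exact_mod_cast dv_pos (hv' j)
  have hur : ∀ j, (0 : ℝ) < u j := fun j => by exact_mod_cast dv_pos (hu' j)
  have hsr : ∀ j, (0 : ℝ) < s j := fun j => by exact_mod_cast dv_pos (hs' j)
  have h4 : ∀ k : ℕ, (1 : ℝ) ≤ 4 ^ k := fun k => one_le_pow₀ (by norm_num)
  have h2 : ∀ k : ℕ, (1 : ℝ) ≤ 2 ^ k := fun k => one_le_pow₀ (by norm_num)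
  have hv4 : ∀ (j : Fin 3) (x : ℝ), 0 ≤ x → x ≤ gw 1 (c1 + 1) (v j) →
      x / v j ≤ 4 ^ (v j).primeFactors.card * (gw 1 (c1 + 1) (v j) / v j) := by
    intro j x hx hle
    calc x / v j ≤ 1 * (gw 1 (c1 + 1) (v j) / v j) := by
          rw [one_mul]
          exact div_le_div_of_nonneg_right hle (hvr j).le
      _ ≤ _ := mul_le_mul_of_nonneg_right (h4 _) (div_nonneg (hgv' j) (hvr j).le)
  have hu2 : ∀ j : Fin 3, 1 / (u j : ℝ) ≤ 2 ^ (u j).primeFactors.card * (1 / (u j : ℝ)) := by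
    intro j
    exact le_mul_of_one_le_left (by have := hur j; positivity) (h2 _)
  have hfin : R * Q / m ≤ (1 / 2) ^ (s 0).primeFactors.card * (∏ j, gw 1 (c1 + 1) (s j)) *
      (∏ j, 4 ^ (v j).primeFactors.card * (gw 1 (c1 + 1) (v j) / v j)) *
      (∏ j, 2 ^ (u j).primeFactors.card * (1 / (u j : ℝ))) := by
    have e1 : R * Q / m = (1 / 2) ^ (s 0).primeFactors.card *
        (((s 0 : ℝ) * gw 1 c1 (s 0) * gw 1 1 (s 0)) * gw 1 c1 (s 1) * gw 1 c1 (s 2)) *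
        ((((v 0 : ℝ) * gw 1 c1 (v 0) * gw 1 1 (v 0)) / v 0) * (gw 1 c1 (v 1) / v 1) *
          (gw 1 c1 (v 2) / v 2)) * ((1 / (u 0 : ℝ)) * (1 / (u 1 : ℝ)) * (1 / (u 2 : ℝ))) := by
      rw [hR, hQ, hm]
      push_cast
      exact alg1 _ _ _ _ _ _ _ _ _ _ _ _ _ _ _ _ (hsr 0).ne' (hvr 0).ne' (hur 0).ne'
    rw [e1, Fin.prod_univ_three, Fin.prod_univ_three, Fin.prod_univ_three]
    have n1 := hgs 0
    have n2 := hgs 1
    have n3 := hgs 2
    have n4 := hgv 0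
    have n5 := hgv 1
    have n6 := hgv 2
    have p1 := hgs' 0
    have p2 := hgs' 1
    have p3 := hgs' 2
    have p4 := hgv' 0
    have p5 := hgv' 1
    have p6 := hgv' 2
    have q1 := hvr 0
    have q2 := hvr 1
    have q3 := hvr 2
    have q4 := hur 0
    have q5 := hur 1
    have q6 := hur 2
    apply mul_le_mul
    · apply mul_le_mul
      · apply mul_le_mul_of_nonneg_left _ (by positivity)
        exact mul_le_mul (mul_le_mul hA0 hA1 n2 p1) hA2 n3 (by positivity)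
      · exact mul_le_mul (mul_le_mul (hv4 0 _ (by positivity) hB0) (hv4 1 _ n5 hB1)
          (by positivity) (by positivity)) (hv4 2 _ n6 hB2) (by positivity) (by positivity)
      · positivity
      · positivity
    · exact mul_le_mul (mul_le_mul (hu2 0) (hu2 1) (by positivity) (by positivity)) (hu2 2)
        (by positivity) (by positivity)
    · positivity
    · positivity
  have hfin2 : D * ((C2 + 1) * C3 * (Q / Real.log y)) =
      (C1 * ((C2 + 1) * C3)) * (X : ℝ) ^ 6 * (R * Q / m) / (Real.log y) ^ 3 := by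
    rw [hD]
    field_simp
  rw [hfin2]
  apply div_le_div_of_nonneg_right _ (by positivity)
  calc (C1 * ((C2 + 1) * C3)) * (X : ℝ) ^ 6 * (R * Q / m)
      ≤ (C1 * ((C2 + 1) * C3)) * (X : ℝ) ^ 6 * ((1 / 2) ^ (s 0).primeFactors.card *
        (∏ j, gw 1 (c1 + 1) (s j)) *
        (∏ j, 4 ^ (v j).primeFactors.card * (gw 1 (c1 + 1) (v j) / v j)) *
        (∏ j, 2 ^ (u j).primeFactors.card * (1 / (u j : ℝ)))) :=
        mul_le_mul_of_nonneg_left hfin (by positivity)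
    _ = _ := by ring

end Pool.Agent.V7H33.CY
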