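import Pool.Agent.V7H45.CY.Spec
import Pool.Agent.V7H54.C8.Cnt8

/-!
# Families of forms: the sieve product and the upper bound sieve in a residue class

Adapted from `Pool.Agent.V7H54.C8`.
-/

set_option autoImplicit false
set_option linter.unusedSectionVars false

namespace Pool.Agent.V7H33.CY

open Finset Pool.Agent.W262.RK Pool.Agent.W307.RT
open Pool.Agent.V7H54.C8 (card_zmod card_aff)
open Pool.Agent.H373R2.T7 (nuB PerB pz mem_pz sys_fund)

/-- the facts about a family of forms which the sieve needs -/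
structure FamOK {n : ℕ} (f : ℤ → ℤ → Fin n → ℤ) (g : ∀ p : ℕ, ZMod p → ZMod p → Fin n → ZMod p)
    (D : Fin n → ℤ) (R : ℕ → Fin n → ℕ) : Prop where
  cast : ∀ (p : ℕ) (a b : ℤ) (j : Fin n),
    ((f a b j : ℤ) : ZMod p) = g p (a : ZMod p) (b : ZMod p) j
  R_eq : ∀ {p : ℕ}, p.Prime → 7 < p → ∀ j, (R p j : ℤ) = 1 + jacobiSym (D j) p
  sum_R : ∀ {p : ℕ}, p.Prime → 7 < p → ∑ j, R p j ≤ 10
  low : ∀ (z : ℕ) (j : Fin n), ∃ C : ℝ, ∀ y : ℕ, 3 ≤ y → z < y →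
      Real.log (Real.log y) - C ≤ ∑ p ∈ PS z y, (R p j : ℝ) / p
  root_card : ∀ {p : ℕ} [Fact p.Prime], 7 < p → ∀ {E t : ZMod p}, (E = 1 ∨ E = -1) → t ≠ 0 →
    ∀ j : Fin n, (univ.filter (fun x : ZMod p => g p x (E * t + 2 * x) j = 0)).card = R p j
  uniq : ∀ {p : ℕ} [Fact p.Prime], 7 < p → ∀ {A B : ZMod p}, ¬ (A = 0 ∧ B = 0) →
    ∀ {j l : Fin n}, g p A B j = 0 → g p A B l = 0 → j = l
  zero : ∀ {p : ℕ} [Fact p.Prime], 7 < p → ∀ {A : ZMod p} {j : Fin n},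
    g p A (2 * A) j = 0 → A = 0
  lift : ∀ {p : ℕ}, p.Prime → 7 < p → ∀ {e x x' w : ℤ}, (e = 1 ∨ e = -1) → ¬ (p : ℤ) ∣ w →
    ∀ {j : Fin n}, (p : ℤ) ^ 2 ∣ f x (e * w + 2 * x) j →
    (p : ℤ) ^ 2 ∣ f x' (e * w + 2 * x') j → (p : ℤ) ∣ x - x' → (p : ℤ) ^ 2 ∣ x - x'

variable {n : ℕ} {f : ℤ → ℤ → Fin n → ℤ} {g : ∀ p : ℕ, ZMod p → ZMod p → Fin n → ZMod p}
  {D : Fin n → ℤ} {R : ℕ → Fin n → ℕ} (hf : FamOK f g D R)

include hf in
/-- the sieve product -/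
lemma prodG (z : ℕ) (hz : 22 ≤ z) : ∃ C : ℝ, 0 < C ∧ ∀ y : ℕ, 3 ≤ y → z < y →
    ∏ p ∈ PS z y, (1 - ((∑ j, R p j : ℕ) : ℝ) / p) ≤ C / (Real.log y) ^ n := by
  choose C hC using hf.low z
  refine ⟨Real.exp (∑ j, C j), Real.exp_pos _, fun y hy hzy => ?_⟩
  have hyr : (3 : ℝ) ≤ y := by exact_mod_cast hy
  have hl1 : 1 < Real.log y := by
    rw [Real.lt_log_iff_exp_lt (by linarith)]
    have := Real.exp_one_lt_d9
    linarith
  have h1 : ∏ p ∈ PS z y, (1 - ((∑ j, R p j : ℕ) : ℝ) / p) ≤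
      ∏ p ∈ PS z y, Real.exp (-(((∑ j, R p j : ℕ) : ℝ) / p)) := by
    apply prod_le_prod
    · intro p hp
      have hp' := (mem_PS.1 hp).1.1
      have hp0 : (0 : ℝ) < p := by exact_mod_cast (mem_PS.1 hp).2.pos
      have h10 := hf.sum_R (mem_PS.1 hp).2 (by omega)
      have hcp : ((∑ j, R p j : ℕ) : ℝ) ≤ p := by exact_mod_cast (by omega : ∑ j, R p j ≤ p)
      rw [sub_nonneg, div_le_one hp0]
      exact hcp
    · intro p _
      have := Real.add_one_le_exp (-(((∑ j, R p j : ℕ) : ℝ) / p))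
      linarith
  refine h1.trans ?_
  rw [← Real.exp_sum, sum_neg_distrib]
  have h2 : ∑ p ∈ PS z y, ((∑ j, R p j : ℕ) : ℝ) / p = ∑ j, ∑ p ∈ PS z y, (R p j : ℝ) / p := by
    rw [sum_comm]
    refine sum_congr rfl fun p _ => ?_
    rw [Nat.cast_sum, sum_div]
  rw [h2]
  have h3 : ∑ j : Fin n, (Real.log (Real.log y) - C j) ≤
      ∑ j, ∑ p ∈ PS z y, (R p j : ℝ) / p := sum_le_sum fun j _ => hC j y hy hzy
  rw [sum_sub_distrib, sum_const, card_univ, Fintype.card_fin, nsmul_eq_mul] at h3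
  push_cast at h3
  have h4 : Real.log y ^ n = Real.exp (n * Real.log (Real.log y)) := by
    rw [← Real.log_pow, Real.exp_log (by positivity)]
  rw [h4, ← Real.exp_sub]
  apply Real.exp_le_exp.2
  linarith

include hf in
/-- the number of residues that are a root of one of the forms -/
lemma nu_cardG {p : ℕ} [Fact p.Prime] (hp : 7 < p) {E t : ZMod p} (hE : E = 1 ∨ E = -1)
    (ht : t ≠ 0) :
    (univ.filter (fun x : ZMod p => ∃ j, g p x (E * t + 2 * x) j = 0)).card = ∑ j, R p j := by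
  have hE0 : E ≠ 0 := by
    rcases hE with h | h <;> rw [h] <;> simp
  have e : (univ.filter (fun x : ZMod p => ∃ j, g p x (E * t + 2 * x) j = 0)) =
      univ.biUnion (fun j => univ.filter (fun x : ZMod p => g p x (E * t + 2 * x) j = 0)) := by
    ext x
    simp
  rw [e, card_biUnion]
  · exact sum_congr rfl fun j _ => hf.root_card hp hE ht j
  · intro j _ l _ hjl
    rw [Function.onFun, disjoint_left]
    intro x hj hl
    simp only [mem_filter, mem_univ, true_and] at hj hl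
    apply hjl
    refine hf.uniq hp ?_ hj hl
    rintro ⟨hx, hy⟩
    rw [hx, mul_zero, add_zero] at hy
    exact (mul_ne_zero hE0 ht) hy

include hf in
lemma R_leG {p : ℕ} (hpp : p.Prime) (h7 : 7 < p) (j : Fin n) : R p j ≤ 2 := by
  have h := hf.R_eq hpp h7 j
  rcases jacobiSym.trichotomy (D j) p with h1 | h1 | h1 <;> rw [h1] at h <;> omega

/-- the sieving condition -/
def QG {n : ℕ} (f : ℤ → ℤ → Fin n → ℤ) (e t : ℤ) (z y : ℕ) (r : ℤ) (m M : ℕ) (p n : ℕ) : Prop :=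
  p ∈ PS z y ∧ ¬ p ∣ M ∧ ∃ j, (p : ℤ) ∣
    f (r + m * ((n : ℤ) - 1)) (e * t + 2 * (r + m * ((n : ℤ) - 1))) j

include hf in
lemma dvd_fG {p : ℕ} (hp : p.Prime) (a b : ℤ) (j : Fin n) :
    (p : ℤ) ∣ f a b j ↔ g p (a : ZMod p) (b : ZMod p) j = 0 := by
  have : Fact p.Prime := ⟨hp⟩
  rw [← hf.cast, ZMod.intCast_zmod_eq_zero_iff_dvd]

include hf in
lemma QG_per (e t : ℤ) (z y : ℕ) (r : ℤ) (m M : ℕ) (p n : ℕ) :
    QG f e t z y r m M p n ↔ QG f e t z y r m M p (n % p) := by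
  unfold QG
  refine and_congr_right fun hp => and_congr_right fun _ => exists_congr fun j => ?_
  rw [dvd_fG hf (mem_PS.1 hp).2, dvd_fG hf (mem_PS.1 hp).2]
  push_cast
  exact Iff.rfl

open Classical in
include hf in
lemma nu_eqG {p : ℕ} (hpp : p.Prime) (hp : 7 < p) {e t : ℤ} (he : e = 1 ∨ e = -1)
    (ht : ¬ (p : ℤ) ∣ t) (r m : ℤ) (hm : ¬ (p : ℤ) ∣ m) (Q : ℕ → ℕ → Prop)
    (hQ : ∀ n, Q p n ↔ ∃ j, (p : ℤ) ∣
      f (r + m * ((n : ℤ) - 1)) (e * t + 2 * (r + m * ((n : ℤ) - 1))) j) :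
    nuB Q p = ∑ j, R p j := by
  have : Fact p.Prime := ⟨hpp⟩
  have hm' : (m : ZMod p) ≠ 0 := fun h => hm ((ZMod.intCast_zmod_eq_zero_iff_dvd _ _).1 h)
  have ht' : (t : ZMod p) ≠ 0 := fun h => ht ((ZMod.intCast_zmod_eq_zero_iff_dvd _ _).1 h)
  have hE : (e : ZMod p) = 1 ∨ (e : ZMod p) = -1 := by
    rcases he with h | h
    · left; rw [h]; simp
    · right; rw [h]; simp
  have h1 : nuB Q p = ((range p).filter (fun n : ℕ => ∃ j,
      g p ((m : ZMod p) * (n : ZMod p) + (r - m))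
        ((e : ZMod p) * t + 2 * ((m : ZMod p) * (n : ZMod p) + (r - m))) j = 0)).card := by
    unfold nuB
    congr 1
    apply filter_congr
    intro n _
    rw [hQ n]
    refine exists_congr fun j => ?_
    rw [dvd_fG hf hpp]
    have e1 : (((r + m * ((n : ℤ) - 1) : ℤ)) : ZMod p) = (m : ZMod p) * (n : ZMod p) + (r - m) := by
      push_cast
      ring
    have e2 : (((e * t + 2 * (r + m * ((n : ℤ) - 1)) : ℤ)) : ZMod p) =
        (e : ZMod p) * t + 2 * ((m : ZMod p) * (n : ZMod p) + (r - m)) := by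
      push_cast
      ring
    rw [e1, e2]
  rw [h1, card_zmod (fun x : ZMod p => ∃ j, g p ((m : ZMod p) * x + (r - m))
        ((e : ZMod p) * t + 2 * ((m : ZMod p) * x + (r - m))) j = 0),
    card_aff (m : ZMod p) ((r : ZMod p) - m) hm' _
      (fun x : ZMod p => ∃ j, g p x ((e : ZMod p) * t + 2 * x) j = 0) (fun x => Iff.rfl)]
  exact nu_cardG hf hp hE ht'

open Classical in
lemma count_leG (e t : ℤ) (z y X m M r : ℕ) :
    ((Icc 1 X).filter (fun x : ℕ => x ≡ r [MOD m] ∧ ∀ p ∈ PS z y, ¬ p ∣ M →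
      ∀ j, ¬ (p : ℤ) ∣ f x (e * t + 2 * x) j)).card ≤
      ((Icc 1 (X / m + 1)).filter
        (fun n : ℕ => ∀ p ∈ pz y, ¬ QG f e t z y ((r % m : ℕ) : ℤ) m M p n)).card := by
  apply card_le_card_of_injOn (fun t => t / m + 1)
  · intro t ht
    have ht' := Finset.mem_coe.1 ht
    have htX := mem_Icc.1 (mem_filter.1 ht').1
    obtain ⟨hmod, hnd⟩ := (mem_filter.1 ht').2
    rw [Finset.mem_coe, mem_filter, mem_Icc]
    refine ⟨⟨Nat.le_add_left 1 _, Nat.succ_le_succ (Nat.div_le_div_right htX.2)⟩, fun p _ hQ => ?_⟩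
    obtain ⟨hpPS, hpm, j, hj⟩ := hQ
    have e : ((r % m : ℕ) : ℤ) + (m : ℤ) * (((t / m + 1 : ℕ) : ℤ) - 1) = (t : ℤ) := by
      have h1 : t % m = r % m := hmod
      rw [← h1]
      have := Nat.mod_add_div t m
      push_cast
      zify at this
      linarith
    rw [e] at hj
    exact hnd p hpPS hpm j hj
  · intro a ha b hb hab
    have ha' : a % m = r % m := (mem_filter.1 (Finset.mem_coe.1 ha)).2.1
    have hb' : b % m = r % m := (mem_filter.1 (Finset.mem_coe.1 hb)).2.1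
    simp only at hab
    have h1 : a / m = b / m := by omega
    rw [← Nat.mod_add_div a m, ← Nat.mod_add_div b m, ha', hb', h1]

set_option maxHeartbeats 1000000 in
include hf in
/-- upper bound sieve in a residue class -/
theorem svG (z : ℕ) (hz : 22 ≤ z) : ∃ (C : ℝ) (K y0 : ℕ), 0 ≤ C ∧ 1 ≤ K ∧
  ∀ X y : ℕ, y0 ≤ y → z < y → y ^ K ≤ X →
  ∀ (e t : ℤ) (m M r : ℕ), (e = 1 ∨ e = -1) → 1 ≤ m → m ∣ M → M ≠ 0 → m ^ 4 ≤ X →
  (∀ p ∈ PS z y, ¬ p ∣ M → ¬ (p : ℤ) ∣ t) →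
    (((Icc 1 X).filter (fun x : ℕ => x ≡ r [MOD m] ∧ ∀ p ∈ PS z y, ¬ p ∣ M →
      ∀ j, ¬ (p : ℤ) ∣ f x (e * t + 2 * x) j)).card : ℝ) ≤
      C * (X / m) * (∏ p ∈ M.primeFactors.filter (fun p => p ∈ PS z y),
        (p : ℝ) / ((p : ℝ) - (10 : ℕ))) / (Real.log y) ^ n := by
  classical
  obtain ⟨K', x0', hK', hF⟩ := sys_fund 10 (by omega) 1 one_pos
  obtain ⟨C1, hC1, hP⟩ := prodG hf z hz
  refine ⟨4 * C1 + 1, 2 * (K' + n), max x0' 3, by positivity, by omega,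
    fun X y hy hzy hyX e t m M r he hm1 hmM hM0 hmX4 hBg => ?_⟩
  obtain ⟨ν, hν⟩ : ∃ ν : ℕ → ℕ, ν = fun p => ∑ j, R p j := ⟨_, rfl⟩
  have hν' : ∀ p, ∑ j, R p j = ν p := fun p => by rw [hν]
  simp only [hν'] at hP
  have hy0 : x0' ≤ y := (le_max_left _ _).trans hy
  have hy3 : 3 ≤ y := (le_max_right _ _).trans hy
  have hmpos : 0 < m := hm1
  have hm0 : m ≠ 0 := hmpos.ne'
  have hr := count_leG (f := f) e t z y X m M r
  have hν10 : ∀ p ∈ PS z y, ν p ≤ 10 := by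
    intro p hp
    rw [← hν']
    have := (mem_PS.1 hp).1.1
    exact hf.sum_R (mem_PS.1 hp).2 (by omega)
  have hnu : ∀ p ∈ PS z y, ¬ p ∣ M →
      nuB (QG f e t z y ((r % m : ℕ) : ℤ) m M) p = ν p := by
    intro p hp hpm
    rw [← hν']
    have := (mem_PS.1 hp).1.1
    apply nu_eqG hf (mem_PS.1 hp).2 (by omega) he (hBg p hp hpm) ((r % m : ℕ) : ℤ) (m : ℤ)
      (fun h => hpm ((Int.natCast_dvd_natCast.1 h).trans hmM))
    intro n
    unfold QG
    exact ⟨fun h => h.2.2, fun h => ⟨hp, hpm, h⟩⟩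
  have hnu0 : ∀ p, ¬ (p ∈ PS z y ∧ ¬ p ∣ M) →
      nuB (QG f e t z y ((r % m : ℕ) : ℤ) m M) p = 0 := by
    intro p hp
    unfold nuB
    rw [card_eq_zero, filter_eq_empty_iff]
    intro n _ hn
    exact hp ⟨hn.1, hn.2.1⟩
  have hPer : PerB (QG f e t z y ((r % m : ℕ) : ℤ) m M) 10 := by
    refine ⟨fun p n => QG_per hf e t z y _ m M p n, fun p _ => ?_⟩
    by_cases h : p ∈ PS z y ∧ ¬ p ∣ M
    · rw [hnu p h.1 h.2]
      exact hν10 p h.1
    · rw [hnu0 p h]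
      exact Nat.zero_le _
  have hfund := hF (y ^ K') y hy0 le_rfl (QG f e t z y ((r % m : ℕ) : ℤ) m M) hPer (X / m + 1)
  have hprod : ∏ p ∈ pz y,
      (1 - ((nuB (QG f e t z y ((r % m : ℕ) : ℤ) m M) p : ℕ) : ℝ) / p) =
      ∏ p ∈ (PS z y).filter (fun p => ¬ p ∣ M), (1 - (ν p : ℝ) / p) := by
    have h1 : ∏ p ∈ (PS z y).filter (fun p => ¬ p ∣ M),
        (1 - ((nuB (QG f e t z y ((r % m : ℕ) : ℤ) m M) p : ℕ) : ℝ) / p) =
        ∏ p ∈ pz y,
      (1 - ((nuB (QG f e t z y ((r % m : ℕ) : ℤ) m M) p : ℕ) : ℝ) / p) := by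
      apply prod_subset
      · intro p hp
        rw [mem_filter, mem_PS] at hp
        exact mem_pz.2 ⟨hp.1.1.2, hp.1.2⟩
      · intro p _ hp
        rw [mem_filter] at hp
        rw [hnu0 p hp]
        simp
    rw [← h1]
    refine prod_congr rfl fun p hp => ?_
    rw [mem_filter] at hp
    rw [hnu p hp.1 hp.2]
  rw [hprod] at hfund
  obtain ⟨A, hA⟩ : ∃ A : ℝ, A = ∏ p ∈ (PS z y).filter (fun p => ¬ p ∣ M), (1 - (ν p : ℝ) / p) :=
    ⟨_, rfl⟩
  obtain ⟨B, hB⟩ : ∃ B : ℝ, B = ∏ p ∈ M.primeFactors.filter (fun p => p ∈ PS z y),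
    (1 - (ν p : ℝ) / p) := ⟨_, rfl⟩
  obtain ⟨D', hD'⟩ : ∃ D' : ℝ, D' = ∏ p ∈ M.primeFactors.filter (fun p => p ∈ PS z y),
    ((p : ℝ) / ((p : ℝ) - ν p)) := ⟨_, rfl⟩
  obtain ⟨D, hD⟩ : ∃ D : ℝ, D = ∏ p ∈ M.primeFactors.filter (fun p => p ∈ PS z y),
    ((p : ℝ) / ((p : ℝ) - (10 : ℕ))) := ⟨_, rfl⟩
  have hz11 : ∀ p ∈ PS z y, (11 : ℝ) ≤ p := by
    intro p hp
    have h1 := (mem_PS.1 hp).1.1
    exact_mod_cast (by omega : 11 ≤ p)
  have hνr : ∀ p ∈ PS z y, (ν p : ℝ) ≤ 10 := fun p hp => by exact_mod_cast hν10 p hp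
  have hfpos : ∀ p ∈ PS z y, 0 < 1 - (ν p : ℝ) / p := by
    intro p hp
    have h1 := hz11 p hp
    have h2 := hνr p hp
    rw [sub_pos, div_lt_one (by linarith)]
    linarith
  have hApos : 0 < A := by
    rw [hA]; exact prod_pos fun p hp => hfpos p (mem_filter.1 hp).1
  have hBpos : 0 < B := by
    rw [hB]; exact prod_pos fun p hp => hfpos p (mem_filter.1 hp).2
  have hAB : A * B = ∏ p ∈ PS z y, (1 - (ν p : ℝ) / p) := by
    have h1 : M.primeFactors.filter (fun p => p ∈ PS z y) = (PS z y).filter (fun p => ¬ ¬ p ∣ M) := by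
      ext p
      rw [mem_filter, mem_filter, not_not]
      constructor
      · rintro ⟨hp, hp2⟩
        exact ⟨hp2, Nat.dvd_of_mem_primeFactors hp⟩
      · rintro ⟨h2, h3⟩
        exact ⟨Nat.mem_primeFactors.2 ⟨(mem_PS.1 h2).2, h3, hM0⟩, h2⟩
    rw [hA, hB, h1]
    exact prod_filter_mul_prod_filter_not _ _ _
  have hDB : D' * B = 1 := by
    rw [hD', hB, ← prod_mul_distrib]
    apply prod_eq_one
    intro p hp
    have h1 := hz11 p (mem_filter.1 hp).2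
    have h3 := hνr p (mem_filter.1 hp).2
    have hp0 : (0 : ℝ) < p := by linarith
    have h2 : (p : ℝ) - ν p ≠ 0 := by
      have : 0 < (p : ℝ) - ν p := by linarith
      exact this.ne'
    field_simp
  have hD'D : D' ≤ D := by
    rw [hD', hD]
    apply prod_le_prod
    · intro p hp
      have h1 := hz11 p (mem_filter.1 hp).2
      have h3 := hνr p (mem_filter.1 hp).2
      exact div_nonneg (by linarith) (by linarith)
    · intro p hp
      have h1 := hz11 p (mem_filter.1 hp).2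
      have h3 := hνr p (mem_filter.1 hp).2
      push_cast
      exact div_le_div_of_nonneg_left (by linarith) (by linarith) (by linarith)
  have hD1 : 1 ≤ D := by
    rw [hD]
    have h1 : ∀ p ∈ M.primeFactors.filter (fun p => p ∈ PS z y),
        (1 : ℝ) ≤ (p : ℝ) / ((p : ℝ) - (10 : ℕ)) := by
      intro p hp
      have h1 := hz11 p (mem_filter.1 hp).2
      push_cast
      rw [le_div_iff₀ (by linarith)]
      linarith
    calc (1 : ℝ) = ∏ p ∈ M.primeFactors.filter (fun p => p ∈ PS z y), (1 : ℝ) := by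
          rw [prod_const_one]
      _ ≤ _ := prod_le_prod (fun _ _ => zero_le_one) h1
  have hDpos : 0 < D := by linarith
  have hAle : A ≤ (C1 / (Real.log y) ^ n) * D := by
    have h0 : 0 ≤ C1 / (Real.log y) ^ n :=
      div_nonneg hC1.le (pow_nonneg (Real.log_natCast_nonneg y) _)
    have h1 : A = (A * B) * D' := by
      calc A = A * (D' * B) := by rw [hDB, mul_one]
        _ = _ := by ring
    have hD'0 : 0 ≤ D' := by
      have : D' = 1 / B := by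
        rw [eq_div_iff hBpos.ne', hDB]
      rw [this]
      positivity
    rw [h1, hAB]
    exact mul_le_mul (hP y hy3 hzy) hD'D hD'0 h0
  have hyr : (3 : ℝ) ≤ y := by exact_mod_cast hy3
  have hl1 : 1 < Real.log y := by
    rw [Real.lt_log_iff_exp_lt (by linarith)]
    have := Real.exp_one_lt_d9
    linarith
  have hly : Real.log y ≤ y := by
    have := Real.log_le_sub_one_of_pos (by linarith : (0 : ℝ) < y)
    linarith
  have hLpos : 0 < (Real.log y) ^ n := by positivity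
  have hmX : m * y ^ (K' + n) ≤ X := by
    have h1 : (m * y ^ (K' + n)) ^ 4 ≤ X ^ 4 := by
      calc (m * y ^ (K' + n)) ^ 4 = m ^ 4 * (y ^ (K' + n)) ^ 4 := by rw [mul_pow]
        _ ≤ m ^ 4 * (y ^ (K' + n)) ^ 6 := by
          apply Nat.mul_le_mul_left
          exact Nat.pow_le_pow_right (pow_pos (by omega) _) (by norm_num)
        _ = m ^ 4 * (y ^ (2 * (K' + n))) ^ 3 := by ring
        _ ≤ X * X ^ 3 := Nat.mul_le_mul hmX4 (Nat.pow_le_pow_left hyX 3)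
        _ = X ^ 4 := by ring
    exact (Nat.pow_le_pow_iff_left (by norm_num)).1 h1
  have hmX' : m ≤ X := by
    refine le_trans ?_ hmX
    exact Nat.le_mul_of_pos_right _ (pow_pos (by omega) _)
  have hmr : (0 : ℝ) < m := by exact_mod_cast hmpos
  have hcnt : (((Icc 1 X).filter (fun x : ℕ => x ≡ r [MOD m] ∧ ∀ p ∈ PS z y, ¬ p ∣ M →
      ∀ j, ¬ (p : ℤ) ∣ f x (e * t + 2 * x) j)).card : ℝ) ≤
      2 * (((X / m + 1 : ℕ) : ℝ) * A) + √((y ^ K' : ℕ) : ℝ) := by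
    have h1 : (((Icc 1 X).filter (fun x : ℕ => x ≡ r [MOD m] ∧ ∀ p ∈ PS z y, ¬ p ∣ M →
      ∀ j, ¬ (p : ℤ) ∣ f x (e * t + 2 * x) j)).card : ℝ) ≤
      (((Icc 1 (X / m + 1)).filter
        (fun n : ℕ => ∀ p ∈ pz y,
          ¬ QG f e t z y ((r % m : ℕ) : ℤ) m M p n)).card : ℝ) := by
      exact_mod_cast hr
    have h2 := (abs_le.1 hfund).2
    rw [one_mul, ← hA] at h2
    linarith
  have hX' : ((X / m + 1 : ℕ) : ℝ) ≤ 2 * (X / m) := by
    have h1 : (X / m + 1) * m ≤ 2 * X := by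
      have := Nat.div_mul_le_self X m
      rw [add_mul, one_mul]
      omega
    have h2 : ((X / m + 1 : ℕ) : ℝ) * m ≤ 2 * X := by exact_mod_cast h1
    rw [← mul_div_assoc, le_div_iff₀ hmr]
    exact h2
  have hsq : √((y ^ K' : ℕ) : ℝ) ≤ (X / m) * D / (Real.log y) ^ n := by
    have h1 : (1 : ℝ) ≤ ((y ^ K' : ℕ) : ℝ) := by
      exact_mod_cast Nat.one_le_iff_ne_zero.2 (pow_ne_zero _ (by omega))
    have h2 : √((y ^ K' : ℕ) : ℝ) ≤ ((y ^ K' : ℕ) : ℝ) := by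
      rw [Real.sqrt_le_left (by linarith)]
      nlinarith
    refine h2.trans ?_
    rw [le_div_iff₀ hLpos]
    have h3 : (Real.log y) ^ n ≤ (y : ℝ) ^ n := pow_le_pow_left₀ (by linarith) hly _
    have h4 : (m : ℝ) * (y : ℝ) ^ (K' + n) ≤ X := by exact_mod_cast hmX
    have h5 : (y : ℝ) ^ (K' + n) ≤ X / m := by
      rw [le_div_iff₀ hmr, mul_comm]
      exact h4
    push_cast
    calc (y : ℝ) ^ K' * (Real.log y) ^ n ≤ (y : ℝ) ^ K' * (y : ℝ) ^ n :=
          mul_le_mul_of_nonneg_left h3 (by positivity)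
      _ = (y : ℝ) ^ (K' + n) := by rw [pow_add]
      _ ≤ X / m := h5
      _ = (X / m) * 1 := (mul_one _).symm
      _ ≤ (X / m) * D := mul_le_mul_of_nonneg_left hD1 (by positivity)
  have hmain : 2 * (((X / m + 1 : ℕ) : ℝ) * A) ≤ 4 * C1 * (X / m) * D / (Real.log y) ^ n := by
    calc 2 * (((X / m + 1 : ℕ) : ℝ) * A) ≤
        2 * ((2 * (X / m)) * ((C1 / (Real.log y) ^ n) * D)) := by gcongr
      _ = _ := by ring
  rw [← hD]
  calc (((Icc 1 X).filter (fun x : ℕ => x ≡ r [MOD m] ∧ ∀ p ∈ PS z y, ¬ p ∣ M →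
      ∀ j, ¬ (p : ℤ) ∣ f x (e * t + 2 * x) j)).card : ℝ)
      ≤ 2 * (((X / m + 1 : ℕ) : ℝ) * A) + √((y ^ K' : ℕ) : ℝ) := hcnt
    _ ≤ 4 * C1 * (X / m) * D / (Real.log y) ^ n + (X / m) * D / (Real.log y) ^ n :=
        add_le_add hmain hsq
    _ = (4 * C1 + 1) * (X / m) * D / (Real.log y) ^ n := by ring

end Pool.Agent.V7H33.CY
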