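import Pool.Agent.V7H33.CY.GC3

/-!
# Families of forms: the counting theorem in the form of the specification
-/

set_option autoImplicit false
set_option linter.unusedSectionVars false

namespace Pool.Agent.V7H33.CY

open Finset Pool.Agent.W262.RK Pool.Agent.W307.RT Pool.Agent.V7H45.G8 Pool.Agent.V7H45.CY
open Pool.Agent.W372.RK2 (mem_Tup')
open Pool.Agent.V7H54.C8 (jr_nonneg)

variable {n : ℕ} {f : ℤ → ℤ → Fin n → ℤ} {g : ∀ p : ℕ, ZMod p → ZMod p → Fin n → ZMod p}
  {D : Fin n → ℤ} {R : ℕ → Fin n → ℕ} (hf : FamOK f g D R)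

lemma gr_prod (D : ℤ) (c d : ℕ) :
    gw 1 c d * ∏ p ∈ d.primeFactors, (1 + Jr D p) = gr D 1 c d := by
  unfold gr gw
  rw [← prod_mul_distrib]
  apply prod_congr rfl
  intro p _
  ring

include hf in
theorem cntf_of : CNTF f D := by
  intro e he
  refine ⟨10, 22, fun z hz => ?_⟩
  obtain ⟨C, K, y0, hC, hK, h⟩ := cntG' hf z hz
  refine ⟨C, K, y0, hC, hK, ?_⟩
  intro X y Y hy0 hzy hX s hs v hv u hu hsvu
  refine (h X y Y hy0 hzy hX e he s hs v hv u hu hsvu).trans ?_
  have hs' := (mem_Tup'.1 hs).1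
  have hv' := (mem_Tup'.1 hv).1
  have hc : 10 ≤ z := by omega
  have hgs : ∀ j, 0 ≤ gw 1 10 (s j) := fun j => gw_nonneg zero_le_one hc (hs' j)
  have hgv : ∀ j, 0 ≤ gw 1 10 (v j) := fun j => gw_nonneg zero_le_one hc (hv' j)
  have e1 : ∏ j, (gw 1 10 (s j) * ∏ p ∈ (s j).primeFactors, (1 + Jr (D j) p)) =
      ∏ j, gr (D j) 1 10 (s j) := prod_congr rfl fun j _ => gr_prod _ _ _
  have e2 : ∏ j, (2 : ℝ) ^ (u j).primeFactors.card / (u j : ℝ) =
      ∏ j, 2 ^ (u j).primeFactors.card * (1 / (u j : ℝ)) :=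
    prod_congr rfl fun j _ => by rw [mul_one_div]
  rw [e1, e2]
  apply div_le_div_of_nonneg_right _ (pow_nonneg (Real.log_natCast_nonneg y) _)
  apply mul_le_mul_of_nonneg_right _ (prod_nonneg fun j _ => by positivity)
  apply mul_le_mul_of_nonneg_left
  · apply prod_le_prod
    · intro j _
      exact mul_nonneg (by positivity) (div_nonneg (hgv j) (Nat.cast_nonneg _))
    · intro j _
      apply mul_le_mul_of_nonneg_right _ (div_nonneg (hgv j) (Nat.cast_nonneg _))
      exact pow_le_pow_left₀ (by norm_num) (by norm_num) _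
  · apply mul_nonneg (by positivity)
    rw [← e1]
    exact prod_nonneg fun j _ => mul_nonneg (hgs j) (prod_nonneg fun p _ => jr_nonneg _ _)

end Pool.Agent.V7H33.CY
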