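import Pool.Agent.V7H33.CY.GC4
import Pool.Agent.V7H54.CY.Fam

/-!
# The forms of `Z/8` and `Z/12`
-/

set_option autoImplicit false
set_option linter.unusedSectionVars false

namespace Pool.Agent.V7H33.CY

open Finset Pool.Agent.W262.RK Pool.Agent.W307.RT Pool.Agent.V7H45.CY
open Pool.Agent.V7H54.C8 (r2 card_zmod card_aff quad_iff r2_eq r2_jac low_one low_r2 sq0)
open Pool.Agent.V7H54.CY (small lift_lin lift_quad)

lemma ten {p : ℕ} (hp : p.Prime) (h : 7 < p) : 10 < p := by
  by_contra h1
  have h2 : p ≤ 10 := by omega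
  interval_cases p <;> revert hp <;> decide

lemma r2_le {p : ℕ} (hpp : p.Prime) (h7 : 7 < p) (D : ℤ) : r2 D p ≤ 2 := by
  have : Fact p.Prime := ⟨hpp⟩
  have h := r2_jac (p := p) (by omega) D
  rcases jacobiSym.trichotomy D p with h1 | h1 | h1 <;> rw [h1] at h <;> omega

/-- the numbers in a field of characteristic greater than 7 -/
lemma num0 {p : ℕ} (hp : 7 < p) (n : ℕ) (h1 : 0 < n) (h2 : n ≤ 7) : ((n : ℕ) : ZMod p) ≠ 0 := by
  intro h
  rw [ZMod.natCast_eq_zero_iff] at h
  have := Nat.le_of_dvd h1 h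
  omega

section gen
variable {p : ℕ} [Fact p.Prime]

lemma lin_card {α β : ZMod p} (hα : α ≠ 0) (h : ZMod p → ZMod p) (hh : ∀ x, h x = α * x + β) :
    (univ.filter (fun x : ZMod p => h x = 0)).card = 1 := by
  have hone : (univ.filter (fun y : ZMod p => y = 0)).card = 1 := by
    rw [filter_eq' univ (0 : ZMod p)]
    simp
  refine Eq.trans ?_ hone
  apply card_aff α β hα
  intro x
  rw [hh x]

lemma qua_card {κ α β t : ZMod p} {D : ℤ} (hκ : κ ≠ 0) (hα : α ≠ 0) (ht : t ≠ 0)
    (h : ZMod p → ZMod p) (hh : ∀ x, κ * h x = (α * x + β * t) ^ 2 - D * t ^ 2) :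
    (univ.filter (fun x : ZMod p => h x = 0)).card = r2 D p := by
  rw [r2_eq]
  apply card_aff (α / t) β (div_ne_zero hα ht)
  intro x
  exact quad_iff hκ ht (hh x)

end gen

/-! ### The forms of `Z/12` -/

/-- the forms of `Z/12` modulo `p` -/
def g7 (p : ℕ) (a b : ZMod p) : Fin 7 → ZMod p :=
  ![a, b, b - a, b + a, b ^ 2 + 3 * a ^ 2, 3 * a ^ 2 - b ^ 2, a ^ 2 + b ^ 2]

/-- the numbers of roots of the forms of `Z/12` -/
def R7 (p : ℕ) : Fin 7 → ℕ := ![1, 1, 1, 1, r2 (-3) p, r2 3 p, r2 (-1) p]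

lemma root7 {p : ℕ} [Fact p.Prime] (hp : 7 < p) {E t : ZMod p} (hE : E = 1 ∨ E = -1) (ht : t ≠ 0)
    (j : Fin 7) :
    (univ.filter (fun x : ZMod p => g7 p x (E * t + 2 * x) j = 0)).card = R7 p j := by
  have h2 : (2 : ZMod p) ≠ 0 := by exact_mod_cast num0 hp 2 (by norm_num) (by norm_num)
  have h3 : (3 : ZMod p) ≠ 0 := by exact_mod_cast num0 hp 3 (by norm_num) (by norm_num)
  have h5 : (5 : ZMod p) ≠ 0 := by exact_mod_cast num0 hp 5 (by norm_num) (by norm_num)
  have h7 : (7 : ZMod p) ≠ 0 := by exact_mod_cast num0 hp 7 (by norm_num) (by norm_num)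
  have hEE : E * E = 1 := by
    rcases hE with h | h <;> rw [h] <;> ring
  fin_cases j
  · exact lin_card (α := 1) (β := 0) one_ne_zero _ (fun x => by simp [g7])
  · exact lin_card (α := 2) (β := E * t) h2 _ (fun x => by simp [g7]; ring)
  · exact lin_card (α := 1) (β := E * t) one_ne_zero _ (fun x => by simp [g7]; ring)
  · exact lin_card (α := 3) (β := E * t) h3 _ (fun x => by simp [g7]; ring)
  · exact qua_card (κ := 7) (α := 7) (β := 2 * E) (D := -3) h7 h7 ht _ (fun x => by
      simp [g7]; linear_combination (3 * t ^ 2) * hEE)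
  · exact qua_card (κ := -1) (α := 1) (β := 2 * E) (D := 3) (neg_ne_zero.2 one_ne_zero)
      one_ne_zero ht _ (fun x => by simp [g7]; linear_combination (-3 * t ^ 2) * hEE)
  · exact qua_card (κ := 5) (α := 5) (β := 2 * E) (D := -1) h5 h5 ht _ (fun x => by
      simp [g7]; linear_combination (t ^ 2) * hEE)

section uniq
variable {K : Type} [Field K]

/-- two different forms of `Z/12` have no common zero -/
lemma uniq7 (h2 : (2 : K) ≠ 0) (h3 : (3 : K) ≠ 0) {A B : K} (hAB : ¬ (A = 0 ∧ B = 0))
    {j l : Fin 7} (hjl : j < l)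
    (hj : (![A, B, B - A, B + A, B ^ 2 + 3 * A ^ 2, 3 * A ^ 2 - B ^ 2, A ^ 2 + B ^ 2] :
      Fin 7 → K) j = 0)
    (hl : (![A, B, B - A, B + A, B ^ 2 + 3 * A ^ 2, 3 * A ^ 2 - B ^ 2, A ^ 2 + B ^ 2] :
      Fin 7 → K) l = 0) : False := by
  apply hAB
  have hs : ∀ x : K, x ^ 2 = 0 → x = 0 := fun x h => pow_eq_zero_iff two_ne_zero |>.1 h
  have hc : ∀ c x : K, c ≠ 0 → c * x = 0 → x = 0 := fun c x h h' =>
    (mul_eq_zero.1 h').resolve_left h
  have h23 : ∀ x : K, 6 * x ^ 2 = 0 → x = 0 := fun x h =>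
    hs x (hc 2 _ h2 (hc 3 _ h3 (by linear_combination h)))
  have h22 : ∀ x : K, 2 * x ^ 2 = 0 → x = 0 := fun x h => hs x (hc 2 _ h2 h)
  have h33 : ∀ x : K, 3 * x ^ 2 = 0 → x = 0 := fun x h => hs x (hc 3 _ h3 h)
  have h44 : ∀ x : K, 4 * x ^ 2 = 0 → x = 0 := fun x h =>
    hs x (hc 2 _ h2 (hc 2 _ h2 (by linear_combination h)))
  have fin1 : A = 0 → B ^ 2 = 0 → A = 0 ∧ B = 0 := fun h h' => ⟨h, hs B h'⟩
  fin_cases j <;> fin_cases l <;> simp at hjl hj hl
  -- A
  · exact ⟨hj, hl⟩
  · exact ⟨hj, by linear_combination hl + hj⟩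
  · exact ⟨hj, by linear_combination hl - hj⟩
  · exact fin1 hj (by linear_combination hl - 3 * A * hj)
  · exact fin1 hj (by linear_combination -hl + 3 * A * hj)
  · exact fin1 hj (by linear_combination hl - A * hj)
  -- B
  · exact ⟨by linear_combination hj - hl, hj⟩
  · exact ⟨by linear_combination hl - hj, hj⟩
  · exact ⟨h33 A (by linear_combination hl - B * hj), hj⟩
  · exact ⟨h33 A (by linear_combination hl + B * hj), hj⟩
  · exact ⟨hs A (by linear_combination hl - B * hj), hj⟩
  -- B - A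
  · have h : A = 0 := hc 2 A h2 (by linear_combination hl - hj)
    exact ⟨h, by linear_combination h + hj⟩
  · have h : A = 0 := h44 A (by linear_combination hl - (B + A) * hj)
    exact ⟨h, by linear_combination h + hj⟩
  · have h : A = 0 := h22 A (by linear_combination hl + (B + A) * hj)
    exact ⟨h, by linear_combination h + hj⟩
  · have h : A = 0 := h22 A (by linear_combination hl - (B + A) * hj)
    exact ⟨h, by linear_combination h + hj⟩
  -- B + A
  · have h : A = 0 := h44 A (by linear_combination hl - (B - A) * hj)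
    exact ⟨h, by linear_combination hj - h⟩
  · have h : A = 0 := h22 A (by linear_combination hl + (B - A) * hj)
    exact ⟨h, by linear_combination hj - h⟩
  · have h : A = 0 := h22 A (by linear_combination hl - (B - A) * hj)
    exact ⟨h, by linear_combination hj - h⟩
  -- B ^ 2 + 3 A ^ 2
  · have h : A = 0 := h23 A (by linear_combination hj + hl)
    exact fin1 h (by linear_combination hj - 3 * A * h)
  · have h : A = 0 := h22 A (by linear_combination hj - hl)
    exact fin1 h (by linear_combination hj - 3 * A * h)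
  -- 3 A ^ 2 - B ^ 2
  · have h : A = 0 := h44 A (by linear_combination hj + hl)
    exact fin1 h (by linear_combination hl - A * h)

end uniq

theorem fam7 : FamOK f7 g7 D7 R7 where
  cast := by
    intro p a b j
    fin_cases j <;> simp [f7, g7]
  R_eq := by
    intro p hpp h7 j
    have : Fact p.Prime := ⟨hpp⟩
    have h0 : jacobiSym 0 p = 0 := jacobiSym.zero_left hpp.one_lt
    fin_cases j
    · simp [R7, D7, h0]
    · simp [R7, D7, h0]
    · simp [R7, D7, h0]
    · simp [R7, D7, h0]
    · exact r2_jac (by omega) (-3)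
    · exact r2_jac (by omega) 3
    · exact r2_jac (by omega) (-1)
  sum_R := by
    intro p hpp h7
    have h4 := r2_le hpp h7 (-3)
    have h5 := r2_le hpp h7 3
    have h6 := r2_le hpp h7 (-1)
    simp only [Fin.sum_univ_succ, R7] at *
    simp at *
    omega
  low := by
    intro z j
    have h1 : ∀ b : ℤ, b ^ 2 ≠ -3 := by
      intro b hb
      nlinarith [sq_nonneg b]
    have h2 : ∀ b : ℤ, b ^ 2 ≠ 3 := by
      intro b hb
      have h1 : b < 2 := by nlinarith
      have h2 : -2 < b := by nlinarith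
      interval_cases b <;> norm_num at hb
    have h3 : ∀ b : ℤ, b ^ 2 ≠ -1 := by
      intro b hb
      nlinarith [sq_nonneg b]
    fin_cases j
    · exact low_one z
    · exact low_one z
    · exact low_one z
    · exact low_one z
    · exact low_r2 z (-3) h1
    · exact low_r2 z 3 h2
    · exact low_r2 z (-1) h3
  root_card := fun hp => root7 hp
  uniq := by
    intro p _ hp A B hAB j l hj hl
    have h2 : (2 : ZMod p) ≠ 0 := by exact_mod_cast num0 hp 2 (by norm_num) (by norm_num)
    have h3 : (3 : ZMod p) ≠ 0 := by exact_mod_cast num0 hp 3 (by norm_num) (by norm_num)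
    rcases lt_trichotomy j l with h | h | h
    · exact (uniq7 h2 h3 hAB h hj hl).elim
    · exact h
    · exact (uniq7 h2 h3 hAB h hl hj).elim
  zero := by
    intro p _ hp A j h
    have h2 : (2 : ZMod p) ≠ 0 := by exact_mod_cast num0 hp 2 (by norm_num) (by norm_num)
    have h3 : (3 : ZMod p) ≠ 0 := by exact_mod_cast num0 hp 3 (by norm_num) (by norm_num)
    have h5 : (5 : ZMod p) ≠ 0 := by exact_mod_cast num0 hp 5 (by norm_num) (by norm_num)
    have h7 : (7 : ZMod p) ≠ 0 := by exact_mod_cast num0 hp 7 (by norm_num) (by norm_num)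
    have hs : ∀ x : ZMod p, x ^ 2 = 0 → x = 0 := fun x h => pow_eq_zero_iff two_ne_zero |>.1 h
    have hc : ∀ c x : ZMod p, c ≠ 0 → c * x = 0 → x = 0 := fun c x h h' =>
      (mul_eq_zero.1 h').resolve_left h
    fin_cases j
    · have h' : A = 0 := h
      exact h'
    · have h' : 2 * A = 0 := h
      exact hc 2 A h2 h'
    · have h' : 2 * A - A = 0 := h
      linear_combination h'
    · have h' : 2 * A + A = 0 := h
      exact hc 3 A h3 (by linear_combination h')
    · have h' : (2 * A) ^ 2 + 3 * A ^ 2 = 0 := h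
      exact hs A (hc 7 _ h7 (by linear_combination h'))
    · have h' : 3 * A ^ 2 - (2 * A) ^ 2 = 0 := h
      exact hs A (by linear_combination -h')
    · have h' : A ^ 2 + (2 * A) ^ 2 = 0 := h
      exact hs A (hc 5 _ h5 (by linear_combination h'))
  lift := by
    intro p hpp h7 e x x' w he hw j h1 h2 h3
    have h10 := ten hpp h7
    fin_cases j
    · have h1' : (p : ℤ) ^ 2 ∣ x := h1
      have h2' : (p : ℤ) ^ 2 ∣ x' := h2
      exact dvd_sub h1' h2'
    · have h1' : (p : ℤ) ^ 2 ∣ e * w + 2 * x := h1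
      have h2' : (p : ℤ) ^ 2 ∣ e * w + 2 * x' := h2
      exact lift_lin hpp (α := 0) (β := 1) (e := e) (w := w)
        (small h10 2 (by norm_num) (by norm_num))
        (by rw [zero_mul, zero_add, one_mul]; exact h1')
        (by rw [zero_mul, zero_add, one_mul]; exact h2')
    · have h1' : (p : ℤ) ^ 2 ∣ (e * w + 2 * x) - x := h1
      have h2' : (p : ℤ) ^ 2 ∣ (e * w + 2 * x') - x' := h2
      exact lift_lin hpp (α := -1) (β := 1) (e := e) (w := w)
        (by rw [show (-1 : ℤ) + 2 * 1 = ((1 : ℕ) : ℤ) by norm_num]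
            exact small h10 1 (by norm_num) (by norm_num))
        (by convert h1' using 1; ring) (by convert h2' using 1; ring)
    · have h1' : (p : ℤ) ^ 2 ∣ (e * w + 2 * x) + x := h1
      have h2' : (p : ℤ) ^ 2 ∣ (e * w + 2 * x') + x' := h2
      exact lift_lin hpp (α := 1) (β := 1) (e := e) (w := w)
        (small h10 3 (by norm_num) (by norm_num))
        (by convert h1' using 1; ring) (by convert h2' using 1; ring)
    · have h1' : (p : ℤ) ^ 2 ∣ (e * w + 2 * x) ^ 2 + 3 * x ^ 2 := h1
      have h2' : (p : ℤ) ^ 2 ∣ (e * w + 2 * x') ^ 2 + 3 * x' ^ 2 := h2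
      exact lift_quad hpp h10 (α := 3) (γ := 1) he hw
        (small h10 3 (by norm_num) (by norm_num))
        (by convert h1' using 1; ring) (by convert h2' using 1; ring) h3
    · have h1' : (p : ℤ) ^ 2 ∣ 3 * x ^ 2 - (e * w + 2 * x) ^ 2 := h1
      have h2' : (p : ℤ) ^ 2 ∣ 3 * x' ^ 2 - (e * w + 2 * x') ^ 2 := h2
      exact lift_quad hpp h10 (α := 3) (γ := -1) he hw
        (by rw [show (3 : ℤ) * -1 = -((3 : ℕ) : ℤ) by norm_num, dvd_neg]
            exact small h10 3 (by norm_num) (by norm_num))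
        (by convert h1' using 1; ring) (by convert h2' using 1; ring) h3
    · have h1' : (p : ℤ) ^ 2 ∣ x ^ 2 + (e * w + 2 * x) ^ 2 := h1
      have h2' : (p : ℤ) ^ 2 ∣ x' ^ 2 + (e * w + 2 * x') ^ 2 := h2
      exact lift_quad hpp h10 (α := 1) (γ := 1) he hw
        (small h10 1 (by norm_num) (by norm_num))
        (by convert h1' using 1; ring) (by convert h2' using 1; ring) h3

theorem t_C12 : S_C12 := cntf_of fam7

/-! ### The forms of `Z/8` -/

/-- the forms of `Z/8` modulo `p` -/
def g5 (p : ℕ) (a b : ZMod p) : Fin 5 → ZMod p := ![a, b - a, b + a, b, 2 * a ^ 2 - b ^ 2]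

/-- the numbers of roots of the forms of `Z/8` -/
def R5 (p : ℕ) : Fin 5 → ℕ := ![1, 1, 1, 1, r2 2 p]

lemma root5 {p : ℕ} [Fact p.Prime] (hp : 7 < p) {E t : ZMod p} (hE : E = 1 ∨ E = -1) (ht : t ≠ 0)
    (j : Fin 5) :
    (univ.filter (fun x : ZMod p => g5 p x (E * t + 2 * x) j = 0)).card = R5 p j := by
  have h2 : (2 : ZMod p) ≠ 0 := by exact_mod_cast num0 hp 2 (by norm_num) (by norm_num)
  have h3 : (3 : ZMod p) ≠ 0 := by exact_mod_cast num0 hp 3 (by norm_num) (by norm_num)
  have hEE : E * E = 1 := by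
    rcases hE with h | h <;> rw [h] <;> ring
  fin_cases j
  · exact lin_card (α := 1) (β := 0) one_ne_zero _ (fun x => by simp [g5])
  · exact lin_card (α := 1) (β := E * t) one_ne_zero _ (fun x => by simp [g5]; ring)
  · exact lin_card (α := 3) (β := E * t) h3 _ (fun x => by simp [g5]; ring)
  · exact lin_card (α := 2) (β := E * t) h2 _ (fun x => by simp [g5]; ring)
  · exact qua_card (κ := -2) (α := 2) (β := 2 * E) (D := 2) (neg_ne_zero.2 h2) h2 ht _
      (fun x => by simp [g5]; linear_combination (-2 * t ^ 2) * hEE)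

section uniq
variable {K : Type} [Field K]

/-- two different forms of `Z/8` have no common zero -/
lemma uniq5 (h2 : (2 : K) ≠ 0) {A B : K} (hAB : ¬ (A = 0 ∧ B = 0))
    {j l : Fin 5} (hjl : j < l)
    (hj : (![A, B - A, B + A, B, 2 * A ^ 2 - B ^ 2] : Fin 5 → K) j = 0)
    (hl : (![A, B - A, B + A, B, 2 * A ^ 2 - B ^ 2] : Fin 5 → K) l = 0) : False := by
  apply hAB
  have hs : ∀ x : K, x ^ 2 = 0 → x = 0 := fun x h => pow_eq_zero_iff two_ne_zero |>.1 h
  have hc : ∀ c x : K, c ≠ 0 → c * x = 0 → x = 0 := fun c x h h' =>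
    (mul_eq_zero.1 h').resolve_left h
  have h22 : ∀ x : K, 2 * x ^ 2 = 0 → x = 0 := fun x h => hs x (hc 2 _ h2 h)
  fin_cases j <;> fin_cases l <;> simp at hjl hj hl
  -- A
  · exact ⟨hj, by linear_combination hl + hj⟩
  · exact ⟨hj, by linear_combination hl - hj⟩
  · exact ⟨hj, hl⟩
  · exact ⟨hj, hs B (by linear_combination -hl + 2 * A * hj)⟩
  -- B - A
  · have h : A = 0 := hc 2 A h2 (by linear_combination hl - hj)
    exact ⟨h, by linear_combination h + hj⟩
  · exact ⟨by linear_combination hl - hj, hl⟩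
  · have h : A = 0 := hs A (by linear_combination hl + (B + A) * hj)
    exact ⟨h, by linear_combination h + hj⟩
  -- B + A
  · exact ⟨by linear_combination hj - hl, hl⟩
  · have h : A = 0 := hs A (by linear_combination hl + (B - A) * hj)
    exact ⟨h, by linear_combination hj - h⟩
  -- B
  · exact ⟨h22 A (by linear_combination hl + B * hj), hj⟩

end uniq

theorem fam5 : FamOK f5 g5 D5 R5 where
  cast := by
    intro p a b j
    fin_cases j <;> simp [f5, g5]
  R_eq := by
    intro p hpp h7 j
    have : Fact p.Prime := ⟨hpp⟩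
    have h0 : jacobiSym 0 p = 0 := jacobiSym.zero_left hpp.one_lt
    fin_cases j
    · simp [R5, D5, h0]
    · simp [R5, D5, h0]
    · simp [R5, D5, h0]
    · simp [R5, D5, h0]
    · exact r2_jac (by omega) 2
  sum_R := by
    intro p hpp h7
    have h4 := r2_le hpp h7 2
    simp only [Fin.sum_univ_succ, R5] at *
    simp at *
    omega
  low := by
    intro z j
    have h2 : ∀ b : ℤ, b ^ 2 ≠ 2 := by
      intro b hb
      have h1 : b < 2 := by nlinarith
      have h2 : -2 < b := by nlinarith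
      interval_cases b <;> norm_num at hb
    fin_cases j
    · exact low_one z
    · exact low_one z
    · exact low_one z
    · exact low_one z
    · exact low_r2 z 2 h2
  root_card := fun hp => root5 hp
  uniq := by
    intro p _ hp A B hAB j l hj hl
    have h2 : (2 : ZMod p) ≠ 0 := by exact_mod_cast num0 hp 2 (by norm_num) (by norm_num)
    rcases lt_trichotomy j l with h | h | h
    · exact (uniq5 h2 hAB h hj hl).elim
    · exact h
    · exact (uniq5 h2 hAB h hl hj).elim
  zero := by
    intro p _ hp A j h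
    have h2 : (2 : ZMod p) ≠ 0 := by exact_mod_cast num0 hp 2 (by norm_num) (by norm_num)
    have h3 : (3 : ZMod p) ≠ 0 := by exact_mod_cast num0 hp 3 (by norm_num) (by norm_num)
    have hs : ∀ x : ZMod p, x ^ 2 = 0 → x = 0 := fun x h => pow_eq_zero_iff two_ne_zero |>.1 h
    have hc : ∀ c x : ZMod p, c ≠ 0 → c * x = 0 → x = 0 := fun c x h h' =>
      (mul_eq_zero.1 h').resolve_left h
    fin_cases j
    · have h' : A = 0 := h
      exact h'
    · have h' : 2 * A - A = 0 := h
      linear_combination h'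
    · have h' : 2 * A + A = 0 := h
      exact hc 3 A h3 (by linear_combination h')
    · have h' : 2 * A = 0 := h
      exact hc 2 A h2 h'
    · have h' : 2 * A ^ 2 - (2 * A) ^ 2 = 0 := h
      exact hs A (hc 2 _ h2 (by linear_combination -h'))
  lift := by
    intro p hpp h7 e x x' w he hw j h1 h2 h3
    have h10 := ten hpp h7
    fin_cases j
    · have h1' : (p : ℤ) ^ 2 ∣ x := h1
      have h2' : (p : ℤ) ^ 2 ∣ x' := h2
      exact dvd_sub h1' h2'
    · have h1' : (p : ℤ) ^ 2 ∣ (e * w + 2 * x) - x := h1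
      have h2' : (p : ℤ) ^ 2 ∣ (e * w + 2 * x') - x' := h2
      exact lift_lin hpp (α := -1) (β := 1) (e := e) (w := w)
        (by rw [show (-1 : ℤ) + 2 * 1 = ((1 : ℕ) : ℤ) by norm_num]
            exact small h10 1 (by norm_num) (by norm_num))
        (by convert h1' using 1; ring) (by convert h2' using 1; ring)
    · have h1' : (p : ℤ) ^ 2 ∣ (e * w + 2 * x) + x := h1
      have h2' : (p : ℤ) ^ 2 ∣ (e * w + 2 * x') + x' := h2
      exact lift_lin hpp (α := 1) (β := 1) (e := e) (w := w)
        (small h10 3 (by norm_num) (by norm_num))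
        (by convert h1' using 1; ring) (by convert h2' using 1; ring)
    · have h1' : (p : ℤ) ^ 2 ∣ e * w + 2 * x := h1
      have h2' : (p : ℤ) ^ 2 ∣ e * w + 2 * x' := h2
      exact lift_lin hpp (α := 0) (β := 1) (e := e) (w := w)
        (small h10 2 (by norm_num) (by norm_num))
        (by rw [zero_mul, zero_add, one_mul]; exact h1')
        (by rw [zero_mul, zero_add, one_mul]; exact h2')
    · have h1' : (p : ℤ) ^ 2 ∣ 2 * x ^ 2 - (e * w + 2 * x) ^ 2 := h1
      have h2' : (p : ℤ) ^ 2 ∣ 2 * x' ^ 2 - (e * w + 2 * x') ^ 2 := h2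
      exact lift_quad hpp h10 (α := 2) (γ := -1) he hw
        (by rw [show (2 : ℤ) * -1 = -((2 : ℕ) : ℤ) by norm_num, dvd_neg]
            exact small h10 2 (by norm_num) (by norm_num))
        (by convert h1' using 1; ring) (by convert h2' using 1; ring) h3

theorem t_C5 : S_C5 := cntf_of fam5

end Pool.Agent.V7H33.CY
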