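import Pool.Agent.V7H33.CY.SpecN

/-!
# Sums of `A ^ ω(g) / g ^ 2`
-/

set_option autoImplicit false

namespace Pool.Agent.V7H33.CY

open Finset Pool.Agent.W262.RK

/-- `A ^ ω(g) ≤ C g ^ (1/4)` -/
lemma pow_omega_le (A : ℕ) (hA : 1 ≤ A) : ∃ C : ℝ, 0 < C ∧ ∀ g : ℕ, 1 ≤ g →
    (A : ℝ) ^ g.primeFactors.card ≤ C * (g : ℝ) ^ (1 / 4 : ℝ) := by
  refine ⟨(A : ℝ) ^ (A ^ 4), by positivity, fun g hg => ?_⟩
  have hA1 : (1 : ℝ) ≤ A := by exact_mod_cast hA
  have h1 : (A : ℝ) ^ g.primeFactors.card = ∏ p ∈ g.primeFactors, (A : ℝ) := by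
    rw [prod_const]
  have h2 : ∏ p ∈ g.primeFactors, (A : ℝ) =
      (∏ p ∈ g.primeFactors.filter (fun p => p < A ^ 4), (A : ℝ)) *
        ∏ p ∈ g.primeFactors.filter (fun p => ¬ p < A ^ 4), (A : ℝ) :=
    (prod_filter_mul_prod_filter_not _ _ _).symm
  have h3 : (∏ p ∈ g.primeFactors.filter (fun p => p < A ^ 4), (A : ℝ)) ≤ (A : ℝ) ^ (A ^ 4) := by
    rw [prod_const]
    apply pow_le_pow_right₀ hA1
    calc (g.primeFactors.filter (fun p => p < A ^ 4)).card ≤ (range (A ^ 4)).card := by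
          apply card_le_card
          intro p hp
          exact mem_range.2 (mem_filter.1 hp).2
      _ = A ^ 4 := card_range _
  have h4 : ∏ p ∈ g.primeFactors.filter (fun p => ¬ p < A ^ 4), (A : ℝ) ≤
      ∏ p ∈ g.primeFactors.filter (fun p => ¬ p < A ^ 4), (p : ℝ) ^ (1 / 4 : ℝ) := by
    apply prod_le_prod (fun _ _ => by positivity)
    intro p hp
    have h5 : A ^ 4 ≤ p := not_lt.1 (mem_filter.1 hp).2
    have h6 : ((A : ℝ) ^ 4) ^ (1 / 4 : ℝ) ≤ (p : ℝ) ^ (1 / 4 : ℝ) := by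
      apply Real.rpow_le_rpow (by positivity) (by exact_mod_cast h5) (by norm_num)
    have h7 : ((A : ℝ) ^ 4) ^ (1 / 4 : ℝ) = A := by
      rw [← Real.rpow_natCast, ← Real.rpow_mul (by positivity)]
      norm_num
    rwa [h7] at h6
  have h5 : ∏ p ∈ g.primeFactors.filter (fun p => ¬ p < A ^ 4), (p : ℝ) ^ (1 / 4 : ℝ) ≤
      (g : ℝ) ^ (1 / 4 : ℝ) := by
    rw [Real.finsetProd_rpow _ _ (fun p _ => Nat.cast_nonneg p)]
    apply Real.rpow_le_rpow (prod_nonneg fun p _ => Nat.cast_nonneg p) _ (by norm_num)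
    rw [← Nat.cast_prod, Nat.cast_le]
    apply Nat.le_of_dvd hg
    exact (prod_dvd_prod_of_subset _ _ (fun p => p) (filter_subset _ _)).trans
      (Nat.prod_primeFactors_dvd g)
  rw [h1, h2]
  exact mul_le_mul h3 (h4.trans h5) (prod_nonneg fun _ _ => by positivity) (by positivity)

/-- the sum over `g` and its tail -/
lemma sum_omega (A : ℕ) (hA : 1 ≤ A) : ∃ C : ℝ, 0 < C ∧
    (∀ G : ℕ, ∑ g ∈ Icc 1 G, (A : ℝ) ^ g.primeFactors.card / (g : ℝ) ^ 2 ≤ C) ∧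
    ∀ G X : ℕ, 1 ≤ X → ∑ g ∈ (Icc 1 G).filter (fun g => X < g),
      (A : ℝ) ^ g.primeFactors.card / (g : ℝ) ^ 2 ≤ C / Real.sqrt X := by
  obtain ⟨C, hC, hle⟩ := pow_omega_le A hA
  have hsum : Summable fun n : ℕ => 1 / (n : ℝ) ^ (5 / 4 : ℝ) :=
    Real.summable_one_div_nat_rpow.2 (by norm_num)
  obtain ⟨S, hS⟩ : ∃ S, S = ∑' n : ℕ, 1 / (n : ℝ) ^ (5 / 4 : ℝ) := ⟨_, rfl⟩
  have hS0 : 0 ≤ S := by rw [hS]; exact tsum_nonneg fun n => by positivity
  have hfin : ∀ F : Finset ℕ, ∑ g ∈ F, 1 / (g : ℝ) ^ (5 / 4 : ℝ) ≤ S := by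
    intro F
    rw [hS]
    exact hsum.sum_le_tsum F (fun n _ => by positivity)
  have hterm : ∀ g : ℕ, 1 ≤ g → (A : ℝ) ^ g.primeFactors.card / (g : ℝ) ^ 2 ≤
      C * (1 / (g : ℝ) ^ (5 / 4 : ℝ)) * (1 / Real.sqrt g) := by
    intro g hg
    have hg0 : (0 : ℝ) < g := by exact_mod_cast hg
    rw [div_le_iff₀ (by positivity)]
    refine (hle g hg).trans (le_of_eq ?_)
    have e1 : 1 / (g : ℝ) ^ (5 / 4 : ℝ) = (g : ℝ) ^ (-(5 / 4) : ℝ) := by
      rw [Real.rpow_neg hg0.le, one_div]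
    have e2 : 1 / Real.sqrt g = (g : ℝ) ^ (-(1 / 2) : ℝ) := by
      rw [Real.rpow_neg hg0.le, ← Real.sqrt_eq_rpow, one_div]
    rw [e1, e2, mul_assoc, mul_assoc]
    congr 1
    rw [← Real.rpow_natCast, ← Real.rpow_add hg0, ← Real.rpow_add hg0]
    norm_num
  refine ⟨C * (S + 1), by positivity, fun G => ?_, fun G X hX => ?_⟩
  · calc ∑ g ∈ Icc 1 G, (A : ℝ) ^ g.primeFactors.card / (g : ℝ) ^ 2
        ≤ ∑ g ∈ Icc 1 G, C * (1 / (g : ℝ) ^ (5 / 4 : ℝ)) := by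
          apply sum_le_sum
          intro g hg
          have hg1 := (mem_Icc.1 hg).1
          have hg0 : (1 : ℝ) ≤ g := by exact_mod_cast hg1
          refine (hterm g hg1).trans ?_
          apply mul_le_of_le_one_right (by positivity)
          rw [div_le_one (by positivity)]
          rw [Real.one_le_sqrt]
          exact hg0
      _ = C * ∑ g ∈ Icc 1 G, (1 / (g : ℝ) ^ (5 / 4 : ℝ)) := by rw [mul_sum]
      _ ≤ C * (S + 1) := mul_le_mul_of_nonneg_left (by linarith [hfin (Icc 1 G)]) hC.le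
  · have hX0 : (0 : ℝ) < X := by exact_mod_cast hX
    calc ∑ g ∈ (Icc 1 G).filter (fun g => X < g), (A : ℝ) ^ g.primeFactors.card / (g : ℝ) ^ 2
        ≤ ∑ g ∈ (Icc 1 G).filter (fun g => X < g),
            (C * (1 / (g : ℝ) ^ (5 / 4 : ℝ))) * (1 / Real.sqrt X) := by
          apply sum_le_sum
          intro g hg
          have hg' := mem_filter.1 hg
          have hg1 := (mem_Icc.1 hg'.1).1
          refine (hterm g hg1).trans ?_
          apply mul_le_mul_of_nonneg_left _ (by positivity)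
          apply one_div_le_one_div_of_le (by positivity)
          apply Real.sqrt_le_sqrt
          exact_mod_cast hg'.2.le
      _ = C * (∑ g ∈ (Icc 1 G).filter (fun g => X < g), (1 / (g : ℝ) ^ (5 / 4 : ℝ))) *
            (1 / Real.sqrt X) := by rw [← sum_mul, ← mul_sum]
      _ ≤ C * (S + 1) * (1 / Real.sqrt X) := by
          apply mul_le_mul_of_nonneg_right _ (by positivity)
          exact mul_le_mul_of_nonneg_left (by linarith [hfin ((Icc 1 G).filter (fun g => X < g))])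
            hC.le
      _ = C * (S + 1) / Real.sqrt X := by rw [mul_one_div]

end Pool.Agent.V7H33.CY
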