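import Pool.Agent.V7H45.CY.Spec3

/-!
# The counting theorem for the curves with a point of order four: the inner step
-/

set_option autoImplicit false

namespace Pool.Agent.V7H33.CY

open Finset Pool.Agent.W262.RK Pool.Agent.W307.RT Pool.Agent.V7H45.G8 Pool.Agent.V7H45.CY

open Classical in
/-- the number of `n` for fixed `g`, `t` -/
noncomputable def cn (e : ℤ) (z y : ℕ) (s v u : Fin 3 → ℕ) (a N g t : ℕ) : ℕ :=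
  ((Icc 1 N).filter (fun n : ℕ => Ok3 e (g, t, n) ∧ S1 z y (f3 e (g, t, n)) = s ∧
    S2 z y (f3 e (g, t, n)) = v ∧ (∀ j, (u j : ℤ) ∣ f3 e (g, t, n) j) ∧
    spl z y e (g, t, n) = a)).card

/-- JOB NG: the sum over `n` for fixed `g`, `t` -/
def S_NG : Prop := ∀ e : ℤ, (e = 1 ∨ e = -1) → ∃ c z0 : ℕ, ∀ z, z0 ≤ z →
  ∃ (C : ℝ) (K y0 : ℕ), 0 ≤ C ∧ 1 ≤ K ∧ ∀ X y Y : ℕ, y0 ≤ y → z < y → y ^ K ≤ X →
  ∀ s ∈ Tup (Fin 3) z y, ∀ v ∈ Tup (Fin 3) z y, ∀ u ∈ Tup (Fin 3) y Y,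
    (∏ j, s j * v j * u j) ^ 8 ≤ X → ∀ a, a ∣ s 0 → ∀ g t : ℕ, 1 ≤ g → 1 ≤ t → g * t ≤ X ^ 2 →
    (cn e z y s v u a (X ^ 4 / g) g t : ℝ) ≤
      C * ((X : ℝ) ^ 4 / g) * 4 ^ g.primeFactors.card * (1 / 2) ^ (s 0).primeFactors.card *
        ((s 0 : ℝ) * gw 1 c (s 0)) * ((v 0 : ℝ) * gw 1 c (v 0)) *
        (gw 1 c (s 1) * gw 1 c (s 2)) * ((gw 1 c (v 1) / v 1) * (gw 1 c (v 2) / v 2)) *
        ((1 / (u 1 : ℝ)) * (1 / (u 2 : ℝ))) / (Real.log y) ^ 2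

end Pool.Agent.V7H33.CY
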