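import Pool.Agent.V7H45.CY.Spec

/-!
# Points of order `m` and injective homomorphisms from `ZMod m`
-/

namespace Pool.Agent.V7H33.CY

open Pool.Agent.V7H45.CY

theorem t_TC : S_TC := by
  intro m W hm
  constructor
  · rintro ⟨P, hP⟩
    have h0 : (zmultiplesHom W.toAffine.Point P) (m : ℤ) = 0 := by
      rw [zmultiplesHom_apply, natCast_zsmul, ← hP, addOrderOf_nsmul_eq_zero]
    refine ⟨ZMod.lift m ⟨zmultiplesHom W.toAffine.Point P, h0⟩, ?_⟩
    rw [ZMod.lift_injective]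
    intro k hk
    have hk' : k • P = 0 := hk
    rw [ZMod.intCast_zmod_eq_zero_iff_dvd] 
    rw [← hP]
    exact addOrderOf_dvd_iff_zsmul_eq_zero.2 hk'
  · rintro ⟨f, hf⟩
    refine ⟨f 1, ?_⟩
    rw [addOrderOf_injective f hf, ZMod.addOrderOf_one]

end Pool.Agent.V7H33.CY
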